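import Pool.Agent.H681.OR.World
import Pool.Graph.R_seed8.TH678.WP.Down
import Pool.Graph.R_seed8.Y626.WC.Total
import Pool.Graph.R_seed8.H601R2.PP

/-!
# The collapse
-/

set_option autoImplicit false

namespace Pool.Agent.H681.OR

open Pool.Agent.NPC Pool.Agent.H620R2.Gauge Pool.Agent.H622R2
open Pool.Agent.TH678.GC (join)
open Pool.Agent.TH678.WP (uPoly_log poly_replicate computable_pairBits computable_replicate)
open Pool.Agent.Y626.WC (isFP_total)

theorem poly_pb {α : Type} [TEnc α] {x w : α → List Bool} (hx : NPC.Poly x) (hw : NPC.Poly w) :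
    NPC.Poly (fun a => pairBits (x a) (w a)) := Pool.Agent.H622R2.poly_pairBits hx hw

theorem poly_unit {α : Type} [TEnc α] {m j : α → ℕ} (hm : UPoly m) (hj : NPC.Poly j) :
    NPC.Poly (fun a => unit (m a) (j a)) := by
  refine NPC.Poly.map (F := fun a l => decide (l = j a)) hm.range ?_
  exact NPC.Poly.decide_eq (NPC.Poly.snd NPC.Poly.id) (hj.comp (NPC.Poly.fst NPC.Poly.id))

theorem uPoly_comp_fst {α β : Type} [TEnc α] [TEnc β] {m : α → ℕ} (hm : UPoly m) :
    UPoly (fun p : α × β => m p.1) := hm.comp (NPC.Poly.fst NPC.Poly.id)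

/-- the fifth tail -/
def drop5 (l : List Bool) : List Bool := l.tail.tail.tail.tail.tail

theorem drop5_length (l : List Bool) : (drop5 l).length = l.length - 5 := by
  unfold drop5
  simp only [List.length_tail]
  omega

/-- the questions of the reduction; `z` is the pair of `r a` and the input -/
def qs (i : ℕ) (z : List Bool) : List (List Bool) :=
  (List.range ((unpair (unpair (unpair z).2).1).2.length *
    (Nat.log 2 (unpair (unpair z).2).2.length + 1))).map fun j =>
    true :: true :: pairBits (unit ((unpair (unpair (unpair z).2).1).2.length *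
      (Nat.log 2 (unpair (unpair z).2).2.length + 1)) j)
      (pairBits (List.replicate i true) (pairBits (List.replicate
        ((drop5 (unpair (unpair (unpair z).2).1).2).length *
          (Nat.log 2 (unpair (unpair z).2).2.length + 1)) true) (unpair z).1))

theorem poly_qs (i : ℕ) : NPC.Poly (qs i) := by
  have h1 : NPC.Poly (fun z : List Bool => (unpair z).1) := NPC.Poly.fst poly_unpair
  have h2 : NPC.Poly (fun z : List Bool => (unpair z).2) := NPC.Poly.snd poly_unpair
  have h3 : NPC.Poly (fun z : List Bool => (unpair (unpair z).2).2) := h2.comp h2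
  have h4 : NPC.Poly (fun z : List Bool => (unpair (unpair (unpair z).2).1).2) :=
    h2.comp (h1.comp h2)
  have h5 : NPC.Poly (fun z : List Bool => drop5 (unpair (unpair (unpair z).2).1).2) :=
    NPC.Poly.tail (NPC.Poly.tail (NPC.Poly.tail (NPC.Poly.tail (NPC.Poly.tail h4))))
  have hm : UPoly (fun z : List Bool => (unpair (unpair (unpair z).2).1).2.length *
      (Nat.log 2 (unpair (unpair z).2).2.length + 1)) := (UPoly.length h4).mul (uPoly_log h3)
  have hq : UPoly (fun z : List Bool => (drop5 (unpair (unpair (unpair z).2).1).2).length *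
      (Nat.log 2 (unpair (unpair z).2).2.length + 1)) := (UPoly.length h5).mul (uPoly_log h3)
  refine NPC.Poly.map (F := fun z j => true :: true :: pairBits (unit
    ((unpair (unpair (unpair z).2).1).2.length *
      (Nat.log 2 (unpair (unpair z).2).2.length + 1)) j)
      (pairBits (List.replicate i true) (pairBits (List.replicate
        ((drop5 (unpair (unpair (unpair z).2).1).2).length *
          (Nat.log 2 (unpair (unpair z).2).2.length + 1)) true) (unpair z).1))) hm.range ?_
  refine NPC.Poly.cons (NPC.Poly.const true) (NPC.Poly.cons (NPC.Poly.const true) ?_)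
  refine poly_pb (poly_unit (uPoly_comp_fst hm) (NPC.Poly.snd NPC.Poly.id)) ?_
  refine poly_pb (NPC.Poly.const _) (poly_pb (poly_replicate (uPoly_comp_fst hq) true) ?_)
  exact h1.comp (NPC.Poly.fst NPC.Poly.id)

theorem list_eq_of_getD {l l' : List Bool} (h : l.length = l'.length)
    (h' : ∀ j < l.length, l.getD j false = l'.getD j false) : l = l' := by
  refine List.ext_getElem h fun j h1 h2 => ?_
  have := h' j h1
  rwa [List.getD_eq_getElem _ _ h1, List.getD_eq_getElem _ _ h2] at this

theorem inM_of_reduces {Φ : ℕ → List Bool → Oracle → Prop} {D E : Oracle} (hE : Good Φ D E)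
    (i : ℕ) {α : Type} [TEnc α] {κ : α → ℕ} {P : α → Prop}
    (h : Reduces (Φ i) (join D E) κ P) : InM (join D E) κ P := by
  obtain ⟨π, g, r, M, hπ, hg, h⟩ := h
  -- the key
  let K : α → Key := fun a => ⟨i, r a, g (κ a) * lg a, (g (κ a) + 5) * lg a⟩
  have hlg : ∀ a : α, 1 ≤ lg a := fun a => Nat.le_add_left _ _
  have hK : ∀ a, (K a).Ok := fun a => by
    have := hlg a
    refine ⟨?_, ?_⟩
    · show 5 ≤ (g (κ a) + 5) * lg a
      nlinarith
    · show g (κ a) * lg a < 2 * ((g (κ a) + 5) * lg a)
      nlinarith
  choose y hy1 hy2 hy3 using fun a => hE.code (K a) (hK a)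
  -- the algorithm
  have hp : NPC.Poly (fun x : List Bool => pairBits (unpair (unpair x).1).1 (unpair x).2) :=
    poly_pb ((NPC.Poly.fst poly_unpair).comp (NPC.Poly.fst poly_unpair))
      (NPC.Poly.snd poly_unpair)
  have hF : IsFP (join D E) (fun x => pairBits ((M.out (join D E)
      (pairBits (unpair (unpair x).1).1 (unpair x).2)).getD []) x) :=
    IsFP.pair (IsFP.comp (isFP_total (join D E) M) (IsFP.of_poly hp)) (IsFP.of_poly NPC.Poly.id)
  have hG : IsFP (join D E) (fun z => (fun p : List Bool × List Bool => p.2)
      (z, (qs i z).map (join D E))) :=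
    IsFP.tt (poly_qs i) (NPC.Poly.snd NPC.Poly.id)
  obtain ⟨M', hM'⟩ := IsFP.comp hG hF
  refine ⟨fun k => pairBits (π k) (List.replicate (g k + 5) true), fun k => g k + 5, y, M', ?_, ?_,
    fun a => ⟨?_, ?_, ?_⟩⟩
  · exact computable_pairBits.comp hπ (computable_replicate.comp
      ((Primrec.nat_add.to_comp.comp hg (Computable.const 5))))
  · exact Primrec.nat_add.to_comp.comp hg (Computable.const 5)
  · rw [hM']
    beta_reduce
    rw [unpair_pairBits]
    dsimp only
    rw [unpair_pairBits]
    dsimp only
    rw [(h a).1, Option.getD_some]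
    congr 1
    have e1 : (drop5 (List.replicate (g (κ a) + 5) true)).length = g (κ a) := by
      rw [drop5_length, List.length_replicate]; omega
    have e2 : qs i (pairBits (r a) (pairBits (pairBits (π (κ a))
        (List.replicate (g (κ a) + 5) true)) (bits a))) =
        (List.range (K a).m).map fun j => true :: true :: (K a).enc j := by
      unfold qs
      simp only [unpair_pairBits, List.length_replicate, e1]
      rfl
    rw [e2, List.map_map]
    refine list_eq_of_getD ?_ fun j hj => ?_
    · rw [List.length_map, List.length_range, (hy1 a).1]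
    · rw [List.length_map, List.length_range] at hj
      rw [List.getD_eq_getElem _ _ (by rw [List.length_map, List.length_range]; exact hj)]
      rw [List.getElem_map, List.getElem_range]
      exact hy2 a j hj
  · rw [(hy1 a).1]
  · rw [hy3 a]
    exact (h a).2

end Pool.Agent.H681.OR
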