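import Pool.Graph.R_seed8.Y626.WC.Defs

/-!
# The class `M[1]` and the classes above it, relative to an oracle, with short questions

All problems are about the elements `a` of an encoded type; `κ a` is the parameter and `|a|` the
length of the bit string `bits a`. An fpt-reduction is computed in polynomial time relative to the
oracle after a computable precomputation `π` on the parameter; it may ask long questions. Questions
(of sentences, and of the second phase of machines) are called short if their length is at most
`g (κ a) * (log |a| + 1)` for a computable function `g`.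
-/

set_option autoImplicit false

namespace Pool.Agent.H681.OR

open Pool.Agent.NPC Pool.Agent.H620R2.Gauge Pool.Agent.Y626.WG

/-- The canonical problem: is there a string `w` of the same length as `y` such that `y w` is in
the oracle? -/
def Mini (A : Oracle) (y : List Bool) : Prop := ∃ w : List Bool, w.length = y.length ∧
  A (y ++ w) = true

/-- The oracle `A`, restricted to the strings of length at most `q`. -/
def upTo (q : ℕ) (A : Oracle) : Oracle := fun z => if z.length ≤ q then A z else false

/-- `log |a| + 1`, the number of bits of an element of a set of size `|a|`. -/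
def lg {α : Type} [TEnc α] (a : α) : ℕ := Nat.log 2 (bits a).length + 1

/-- The parameterized problem `P` with the parameter `κ` is in `M[1]` relative to the oracle `A`, in
a narrow sense: there is an fpt-reduction `r` to the problem `Mini A` such that the length of `r a`
is at most `g (κ a) * (log |a| + 1)` for a computable function `g`. -/
def InM (A : Oracle) {α : Type} [TEnc α] (κ : α → ℕ) (P : α → Prop) : Prop :=
  ∃ (π : ℕ → List Bool) (g : ℕ → ℕ) (r : α → List Bool) (M : Alg), Computable π ∧ Computable g ∧
    ∀ a, M.out A (pairBits (π (κ a)) (bits a)) = some (r a) ∧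
      (r a).length ≤ g (κ a) * lg a ∧ (P a ↔ Mini A (r a))

/-- A literal with the sign `b`: the variable number `i`, for `(b, inl i)`, or the atom `(b, inr u)`
which asks the oracle; `u` is a list of constants `inl c` and of variables `inr i`. -/
abbrev Lit : Type := Bool × (ℕ ⊕ List (Bool ⊕ ℕ))

/-- A propositional formula in conjunctive normal form: the number of the variables and the list of
the clauses. -/
abbrev Fml : Type := ℕ × List (List Lit)

/-- The value of a constant or of a variable under the assignment `x`. -/
def tval (x : List Bool) : Bool ⊕ ℕ → Bool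
  | Sum.inl c => c
  | Sum.inr i => x.getD i false

/-- The value of a literal under the assignment `x`, relative to the oracle `A`. -/
def lval (A : Oracle) (x : List Bool) : Lit → Bool
  | (b, Sum.inl i) => decide (x.getD i false = b)
  | (b, Sum.inr u) => decide (A (u.map (tval x)) = b)

/-- The literal is built with `n` variables, and questions have at most `n` bits. -/
def LitOk (n : ℕ) : Lit → Prop
  | (_, Sum.inl i) => i < n
  | (_, Sum.inr u) => u.length ≤ n ∧ ∀ i, Sum.inr i ∈ u → i < n

/-- The class `Γ_{1,d}`, relative to an oracle: the clauses have at most `d` literals. -/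
def Gam (d : ℕ) (φ : Fml) : Prop := ∀ c ∈ φ.2, c.length ≤ d ∧ ∀ l ∈ c, LitOk φ.1 l

/-- The formula `φ` is satisfiable relative to the oracle `A`. -/
def FSat (A : Oracle) (φ : Fml) : Prop := ∃ x : List Bool, x.length = φ.1 ∧
  ∀ c ∈ φ.2, ∃ l ∈ c, lval A x l = true

/-- The parameter of `p-log-SAT`: the number of the variables divided by the logarithm of the size
of the formula, rounded up. -/
def logParam (φ : Fml) : ℕ :=
  (φ.1 + Nat.log 2 (bits φ).length - 1) / Nat.log 2 (bits φ).length

/-- The parameterized problem `P` is in `M[1]` relative to the oracle `A`: for some `d` there is an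
fpt-reduction `R` relative to `A` to `p-log-SAT` for formulas in `Γ_{1,d}` relative to `A`. -/
def InM1 (A : Oracle) {α : Type} [TEnc α] (κ : α → ℕ) (P : α → Prop) : Prop :=
  ∃ (d : ℕ) (π : ℕ → List Bool) (g : ℕ → ℕ) (R : α → Fml) (M : Alg), Computable π ∧
    Computable g ∧ ∀ a, M.out A (pairBits (π (κ a)) (bits a)) = some (bits (R a)) ∧
      Gam d (R a) ∧ logParam (R a) ≤ g (κ a) ∧ (P a ↔ FSat A (R a))

/-- The parameterized problem `P` is in `W[t]` relative to the oracle `A`, with short questions:
there is an fpt-reduction `R` to the model-checking problem for `Σ_{t,1}`-sentences on structures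
whose elements are labelled with strings of length at most `g (κ a) * (log |a| + 1)`. The atoms of
the sentences may say that the concatenation of the labels of some variables is in the oracle. -/
def InWs (t : ℕ) (A : Oracle) {α : Type} [TEnc α] (κ : α → ℕ) (P : α → Prop) : Prop :=
  ∃ (π : ℕ → List Bool) (g : ℕ → ℕ) (R : α → Inst) (M : Alg), Computable π ∧ Computable g ∧
    ∀ a, M.out A (pairBits (π (κ a)) (bits a)) = some (bits (R a)) ∧ (R a).IsW t ∧
      (R a).param ≤ g (κ a) ∧ (∀ l ∈ (R a).labels, l.length ≤ g (κ a) * lg a) ∧
      (P a ↔ (R a).Sat A)

/-- The parameterized problem `P` is in `A[t]` relative to the oracle `A`, with short questions: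
the same with `Σ_t`-sentences. -/
def InAs (t : ℕ) (A : Oracle) {α : Type} [TEnc α] (κ : α → ℕ) (P : α → Prop) : Prop :=
  ∃ (π : ℕ → List Bool) (g : ℕ → ℕ) (R : α → Inst) (M : Alg), Computable π ∧ Computable g ∧
    ∀ a, M.out A (pairBits (π (κ a)) (bits a)) = some (bits (R a)) ∧ (R a).IsA t ∧
      (R a).param ≤ g (κ a) ∧ (∀ l ∈ (R a).labels, l.length ≤ g (κ a) * lg a) ∧
      (P a ↔ (R a).Sat A)

/-- The parameterized problem `P` is in `AW[*]` relative to the oracle `A`, with short questions:
the same with arbitrary sentences; the number of the blocks of quantifiers is bounded by a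
computable function of the parameter, too. -/
def InAWs (A : Oracle) {α : Type} [TEnc α] (κ : α → ℕ) (P : α → Prop) : Prop :=
  ∃ (π : ℕ → List Bool) (g : ℕ → ℕ) (R : α → Inst) (M : Alg), Computable π ∧ Computable g ∧
    ∀ a, M.out A (pairBits (π (κ a)) (bits a)) = some (bits (R a)) ∧ (R a).labels ≠ [] ∧
      (R a).blocks.length + (R a).param ≤ g (κ a) ∧
      (∀ l ∈ (R a).labels, l.length ≤ g (κ a) * lg a) ∧ (P a ↔ (R a).Sat A)

/-- The parameterized problem `P` is in `W[P]` relative to the oracle `A`, with short questions:
after an fpt-reduction `r` a polynomial-time algorithm `V` with the guess of a string of length at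
most `g (κ a) * (log |a| + 1)` decides; `V` may ask whether strings of at most this length are in
the oracle. -/
def InWPs (A : Oracle) {α : Type} [TEnc α] (κ : α → ℕ) (P : α → Prop) : Prop :=
  ∃ (π : ℕ → List Bool) (g : ℕ → ℕ) (r : α → List Bool) (M V : Alg), Computable π ∧
    Computable g ∧ ∀ a, M.out A (pairBits (π (κ a)) (bits a)) = some (r a) ∧
      (P a ↔ ∃ w : List Bool, w.length ≤ g (κ a) * lg a ∧
        V.out (upTo (g (κ a) * lg a) A) (pairBits w (r a)) = some [true])

/-- The parameterized problem `P` has an fpt-reduction `r` relative to the oracle `A` to the problem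
`Φ` about strings and oracles, where the oracle is restricted to the strings of length at most
`g (κ a) * (log |a| + 1)`. The property `Φ` may be arbitrary. -/
def Reduces (Φ : List Bool → Oracle → Prop) (A : Oracle) {α : Type} [TEnc α] (κ : α → ℕ)
    (P : α → Prop) : Prop :=
  ∃ (π : ℕ → List Bool) (g : ℕ → ℕ) (r : α → List Bool) (M : Alg), Computable π ∧ Computable g ∧
    ∀ a, M.out A (pairBits (π (κ a)) (bits a)) = some (r a) ∧
      (P a ↔ Φ (r a) (upTo (g (κ a) * lg a) A))

/-- The parameter of the canonical problem in `M[1]`: for the pair `a = (p, y)` the length of `y`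
divided by `log |p| + 1`, rounded up. -/
def width (a : List Bool × List Bool) : ℕ :=
  (a.2.length + Nat.log 2 a.1.length) / (Nat.log 2 a.1.length + 1)

end Pool.Agent.H681.OR
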