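import Pool.Agent.H681.OR.World

/-!
# Every system of commitments is respected by a good oracle
-/

set_option autoImplicit false

namespace Pool.Agent.H681.OR

open Pool.Agent.NPC Pool.Agent.H620R2.Gauge
open Pool.Agent.TH678.GC (join)
open Pool.Agent.Y626.WC (cut cut_cut exists_self)

section

variable (Φ : ℕ → List Bool → Oracle → Prop) (D E₀ : Oracle) (m₀ : ℕ)
  (S : Finset (Key × List Bool)) (ys : List Bool) (b : Bool)
  (yr : ℕ → List Bool) (wit : List Bool → List Bool)

/-- the status of the row `y` -/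
def status (X : Oracle) (y : List Bool) : Prop :=
  (y = ys ∧ b = true) ∨ (∃ K, (K, y) ∈ S ∧ truth Φ D X K) ∨ y = yr y.length

open Classical in
/-- the row of the key `K` -/
noncomputable def rowW (X : Oracle) (K : Key) : List Bool :=
  if h : ∃ y, (K, y) ∈ S then h.choose else rowOf Φ D X K

open Classical in
/-- the new oracle, defined by recursion on the length -/
noncomputable def newF (z : List Bool) (X : Oracle) : Bool :=
  if z.length < 2 * m₀ - 1 then E₀ z else
    match z with
    | [] => false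
    | true :: c => decide (∃ (K : Key) (j : ℕ), K.Ok ∧ j < K.m ∧ K.enc j = c ∧
        (rowW Φ D S X K).getD j false = true)
    | false :: x => decide (∃ y w : List Bool, Row y.length y ∧ w.length = y.length ∧
        true :: false :: x = y ++ w ∧ w = wit y ∧ status Φ D S ys b yr X y)

end

section

variable {Φ : ℕ → List Bool → Oracle → Prop} {D E₀ : Oracle} {m₀ : ℕ}
  {S : Finset (Key × List Bool)} {ys : List Bool} {b : Bool}
  {yr : ℕ → List Bool} {wit : List Bool → List Bool} {E : Oracle}

theorem new_low (hE : ∀ z, E z = newF Φ D E₀ m₀ S ys b yr wit z (cut E z.length)) {z : List Bool}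
    (hz : z.length < 2 * m₀ - 1) : E z = E₀ z := by
  rw [hE]
  unfold newF
  rw [if_pos hz]

theorem new_code (hE : ∀ z, E z = newF Φ D E₀ m₀ S ys b yr wit z (cut E z.length))
    {c : List Bool} (hc : 2 * m₀ - 1 ≤ c.length + 1) : E (true :: c) = true ↔
      ∃ (K : Key) (j : ℕ), K.Ok ∧ j < K.m ∧ K.enc j = c ∧
        (rowW Φ D S (cut E (c.length + 1)) K).getD j false = true := by
  rw [hE, newF, if_neg (by rw [List.length_cons]; omega)]
  simp only [List.length_cons, decide_eq_true_eq]

theorem new_row (hE : ∀ z, E z = newF Φ D E₀ m₀ S ys b yr wit z (cut E z.length))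
    {x : List Bool} (hc : 2 * m₀ - 1 ≤ x.length + 1) : E (false :: x) = true ↔
      ∃ y w : List Bool, Row y.length y ∧ w.length = y.length ∧
        true :: false :: x = y ++ w ∧ w = wit y ∧
        status Φ D S ys b yr (cut E (x.length + 1)) y := by
  rw [hE, newF, if_neg (by rw [List.length_cons]; omega)]
  simp only [List.length_cons, decide_eq_true_eq]

theorem new_codes (hE : ∀ z, E z = newF Φ D E₀ m₀ S ys b yr wit z (cut E z.length))
    {K : Key} (hK : K.Ok) (hl : 2 * m₀ - 1 ≤ K.len) :
    Codes E K (rowW Φ D S (cut E K.len) K) := by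
  intro j hj
  have h1 := new_code hE (c := K.enc j) (by rw [K.enc_length j]; exact hl)
  rw [K.enc_length j] at h1
  have h2 : (∃ (K' : Key) (j' : ℕ), K'.Ok ∧ j' < K'.m ∧ K'.enc j' = K.enc j ∧
        (rowW Φ D S (cut E K.len) K').getD j' false = true) ↔
      (rowW Φ D S (cut E K.len) K).getD j false = true := by
    constructor
    · rintro ⟨K', j', _, _, h4, h5⟩
      obtain ⟨rfl, rfl⟩ := Key.enc_inj hj h4.symm
      exact h5
    · intro h
      exact ⟨K, j, hK, hj, rfl, h⟩
  rw [h2] at h1
  exact Bool.eq_iff_iff.2 h1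

theorem new_mini (hE : ∀ z, E z = newF Φ D E₀ m₀ S ys b yr wit z (cut E z.length))
    (hwit : ∀ y : List Bool, m₀ ≤ y.length → (wit y).length = y.length)
    (h5 : 5 ≤ m₀) {m : ℕ} (hm : m₀ ≤ m) {y : List Bool} (hy : Row m y) :
    Mini (join D E) y ↔ status Φ D S ys b yr (cut E (2 * m - 1)) y := by
  obtain ⟨h1, x, rfl⟩ := hy
  rw [List.length_cons, List.length_cons] at h1
  constructor
  · rintro ⟨w, h2, h3⟩
    have h4 : E (false :: (x ++ w)) = true := h3
    rw [List.length_cons, List.length_cons] at h2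
    have hl : (x ++ w).length + 1 = 2 * m - 1 := by
      rw [List.length_append]; omega
    rw [new_row hE (by rw [hl]; omega), hl] at h4
    obtain ⟨y', w', h6, h7, h8, h9, h10⟩ := h4
    have h11 : true :: false :: x ++ w = y' ++ w' := h8
    have h12 : (true :: false :: x).length = y'.length := by
      have := congrArg List.length h11
      simp only [List.length_append, List.length_cons] at this ⊢
      omega
    obtain ⟨h13, h14⟩ := List.append_inj h11 h12
    rw [h13]
    exact h10
  · intro h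
    have h2 := hwit (true :: false :: x) (by rw [List.length_cons, List.length_cons]; omega)
    refine ⟨wit (true :: false :: x), h2, ?_⟩
    show E (false :: (x ++ wit (true :: false :: x))) = true
    rw [List.length_cons, List.length_cons] at h2
    have hl : (x ++ wit (true :: false :: x)).length + 1 = 2 * m - 1 := by
      rw [List.length_append]; omega
    rw [new_row hE (by rw [hl]; omega), hl]
    refine ⟨true :: false :: x, wit (true :: false :: x), ⟨rfl, x, rfl⟩, ?_, rfl, rfl, h⟩
    rw [h2]; rfl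

end

/-- The existence of good oracles which respect the commitments. -/
theorem exists_world (Φ : ℕ → List Bool → Oracle → Prop) (D E₀ : Oracle) (m₀ : ℕ) (h5 : 5 ≤ m₀)
    (hE₀ : GoodB Φ D m₀ E₀) (S : Finset (Key × List Bool)) (Q : Finset (List Bool))
    (ys : List Bool) (hys : Row m₀ ys) (hS : SOk m₀ ys S) (hQ : QOk m₀ Q)
    (hc : S.card + Q.card + 3 ≤ 2 ^ (m₀ - 2)) (b : Bool) :
    ∃ E, Good Φ D E ∧ Compat Φ D E₀ m₀ S Q E ∧ (Mini (join D E) ys ↔ b = true) := by
  classical
  have hp : ∀ m, m₀ ≤ m → 2 ^ (m₀ - 2) ≤ 2 ^ (m - 2) := fun m hm =>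
    Nat.pow_le_pow_right (by norm_num) (by omega)
  have hcI : (insert ys (S.image Prod.snd)).card ≤ S.card + 1 :=
    (Finset.card_insert_le _ _).trans (Nat.add_le_add_right Finset.card_image_le 1)
  -- the rows for `true`
  have hyr : ∃ yr : ℕ → List Bool, ∀ m, m₀ ≤ m → Row m (yr m) ∧ yr m ≠ ys ∧
      ∀ p ∈ S, p.2 ≠ yr m := by
    have : ∀ m, ∃ y, m₀ ≤ m → Row m y ∧ y ≠ ys ∧ ∀ p ∈ S, p.2 ≠ y := by
      intro m
      by_cases hm : m₀ ≤ m
      · obtain ⟨y, h1, h2⟩ := exists_fresh (m := m) (by omega) (insert ys (S.image Prod.snd)) (by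
          have := hp m hm
          omega)
        refine ⟨y, fun _ => ⟨h1, fun h => h2 (by rw [h]; exact Finset.mem_insert_self _ _),
          fun p hp h => h2 ?_⟩⟩
        rw [← h]
        exact Finset.mem_insert_of_mem (Finset.mem_image_of_mem Prod.snd hp)
      · exact ⟨[], fun h => absurd h hm⟩
    choose yr h using this
    exact ⟨yr, h⟩
  obtain ⟨yr, hyr⟩ := hyr
  -- the rows for `false`
  have hyn : ∀ m, m₀ ≤ m → ∃ y, Row m y ∧ y ≠ ys ∧ (∀ p ∈ S, p.2 ≠ y) ∧ y ≠ yr m := by
    intro m hm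
    obtain ⟨y, h1, h2⟩ := exists_fresh (m := m) (by omega)
      (insert (yr m) (insert ys (S.image Prod.snd))) (by
        have := hp m hm
        have := Finset.card_insert_le (yr m) (insert ys (S.image Prod.snd))
        omega)
    rw [Finset.mem_insert, Finset.mem_insert, not_or, not_or] at h2
    refine ⟨y, h1, h2.2.1, fun p hp h => h2.2.2 ?_, h2.1⟩
    rw [← h]
    exact Finset.mem_image_of_mem Prod.snd hp
  -- the witnesses
  have hw : ∃ wit : List Bool → List Bool, ∀ y : List Bool, m₀ ≤ y.length →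
      (wit y).length = y.length ∧ (y ++ wit y).tail ∉ Q := by
    have : ∀ y : List Bool, ∃ w : List Bool, m₀ ≤ y.length →
        w.length = y.length ∧ (y ++ w).tail ∉ Q := by
      intro y
      by_cases hm : m₀ ≤ y.length
      · obtain ⟨w, h1, h2⟩ := exists_wit (y := y) Q (by
          have h1 : 2 ^ (m₀ - 2) ≤ 2 ^ y.length := Nat.pow_le_pow_right (by norm_num) (by omega)
          omega)
        exact ⟨w, fun _ => ⟨h1, h2⟩⟩
      · exact ⟨[], fun h => absurd h hm⟩
    choose wit h using this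
    exact ⟨wit, h⟩
  obtain ⟨wit, hwit⟩ := hw
  obtain ⟨E, hE⟩ := exists_self (newF Φ D E₀ m₀ S ys b yr wit)
  have hlow : Agree (2 * m₀ - 1) E₀ E := fun z hz => (new_low hE hz).symm
  have hmini : ∀ {m : ℕ}, m₀ ≤ m → ∀ {y : List Bool}, Row m y →
      (Mini (join D E) y ↔ status Φ D S ys b yr (cut E (2 * m - 1)) y) := fun hm _ hy =>
    new_mini hE (fun y hy => (hwit y hy).1) h5 hm hy
  -- the status of the rows
  have hst : ∀ K y, (K, y) ∈ S → (Mini (join D E) y ↔ truth Φ D E K) := by
    intro K y hKy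
    have hr : Row K.m y := hS.row _ hKy
    have hm : m₀ ≤ K.m := hS.lev _ hKy
    rw [hmini hm hr]
    have ha : Agree K.q (cut E (2 * K.m - 1)) E :=
      (agree_cut E _).mono (by have h : K.q < 2 * K.m := (hS.ok _ hKy).2; omega)
    rw [← truth_congr ha]
    unfold status
    constructor
    · rintro (⟨h1, _⟩ | ⟨K', h1, h2⟩ | h1)
      · exact absurd h1 (hS.ne _ hKy)
      · have h3 : K' = K := hS.inj _ h1 _ hKy rfl
        rw [← h3]
        exact h3 ▸ h2
      · rw [hr.1] at h1
        exact absurd h1 ((hyr K.m hm).2.2 _ hKy)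
    · intro h
      exact Or.inr (Or.inl ⟨K, hKy, h⟩)
  have hstys : Mini (join D E) ys ↔ b = true := by
    rw [hmini le_rfl hys]
    unfold status
    constructor
    · rintro (⟨_, h1⟩ | ⟨K', h1, h2⟩ | h1)
      · exact h1
      · exact absurd rfl (hS.ne _ h1)
      · rw [hys.1] at h1
        exact absurd h1.symm (hyr m₀ le_rfl).2.1
    · intro h
      exact Or.inl ⟨rfl, h⟩
  have hyes : ∀ m, 5 ≤ m → ∃ y, Row m y ∧ Mini (join D E) y := by
    intro m hm
    by_cases h : m < m₀
    · obtain ⟨y, h1, h2⟩ := hE₀.yes m hm h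
      exact ⟨y, h1, (mini_congr hlow (by rw [h1.1]; omega)).1 h2⟩
    · rw [not_lt] at h
      refine ⟨yr m, (hyr m h).1, ?_⟩
      rw [hmini h (hyr m h).1]
      exact Or.inr (Or.inr (by rw [(hyr m h).1.1]))
  have hno : ∀ m, 5 ≤ m → ∃ y, Row m y ∧ ¬ Mini (join D E) y := by
    intro m hm
    by_cases h : m < m₀
    · obtain ⟨y, h1, h2⟩ := hE₀.no m hm h
      exact ⟨y, h1, fun h3 => h2 ((mini_congr hlow (by rw [h1.1]; omega)).2 h3)⟩
    · rw [not_lt] at h
      obtain ⟨y, h1, h2, h3, h4⟩ := hyn m h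
      refine ⟨y, h1, ?_⟩
      rw [hmini h h1]
      rintro (⟨h6, _⟩ | ⟨K', h6, _⟩ | h6)
      · exact h2 h6
      · exact h3 _ h6 rfl
      · rw [h1.1] at h6
        exact h4 h6
  -- the rows of the keys
  have hrowS : ∀ K y, (K, y) ∈ S → ∀ X, rowW Φ D S X K = y := by
    intro K y hKy X
    have hex : ∃ y, (K, y) ∈ S := ⟨y, hKy⟩
    unfold rowW
    rw [dif_pos hex]
    exact hS.fn _ hex.choose_spec _ hKy rfl
  have hrowN : ∀ K, (¬ ∃ y, (K, y) ∈ S) → rowW Φ D S (cut E K.len) K = rowOf Φ D E K := by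
    intro K hK
    unfold rowW
    rw [dif_neg hK]
    refine rowOf_congr (n := 2 * K.m) ((agree_cut E _).mono ?_) le_rfl
    unfold Key.len
    omega
  have hlen : ∀ K : Key, 2 * K.m + 2 ≤ K.len := fun K => by unfold Key.len; omega
  refine ⟨E, ⟨hyes, hno, fun K hK => ?_⟩, ⟨hlow, ?_, ?_, ?_, ?_⟩, hstys⟩
  · have hl := hlen K
    by_cases h : K.len < 2 * m₀ - 1
    · obtain ⟨y, h1, h2, h3⟩ := hE₀.code K hK h
      refine ⟨y, h1, (codes_congr hlow h).1 h2, ?_⟩
      rw [← mini_congr hlow (by rw [h1.1]; omega), h3,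
        truth_congr (hlow.mono (by have := hK.2; omega))]
    · rw [not_lt] at h
      by_cases hex : ∃ y, (K, y) ∈ S
      · obtain ⟨y, hKy⟩ := hex
        refine ⟨y, hS.row _ hKy, ?_, hst K y hKy⟩
        have := new_codes hE hK h
        rwa [hrowS K y hKy] at this
      · obtain ⟨h1, h2⟩ := rowOf_spec hK (hyes _ hK.1) (hno _ hK.1)
        refine ⟨_, h1, ?_, h2⟩
        have := new_codes hE hK h
        rwa [hrowN K hex] at this
  · intro q hq
    obtain ⟨h1, x, rfl⟩ := hQ q hq
    rw [List.length_cons] at h1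
    rw [Bool.eq_false_iff]
    intro h
    rw [new_row hE h1] at h
    obtain ⟨y, w, h2, h3, h4, h6, _⟩ := h
    have h7 : m₀ ≤ y.length := by
      have := congrArg List.length h4
      simp only [List.length_append, List.length_cons] at this
      omega
    apply (hwit y h7).2
    rw [← h6, ← h4]
    exact hq
  · intro p hp'
    have h1 := hS.lev p hp'
    have h2 := hlen p.1
    have := new_codes hE (hS.ok p hp') (by omega)
    rwa [hrowS p.1 p.2 hp'] at this
  · intro c hc' hno'
    rw [Bool.eq_false_iff]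
    intro h
    rw [new_code hE hc'] at h
    obtain ⟨K, j, h1, h2, h3, _⟩ := h
    exact hno' ⟨K, j, h1, h2, h3⟩
  · intro K hK hm hl
    have hex : ¬ ∃ y, (K, y) ∈ S := fun ⟨y, hy⟩ => absurd (hS.lev _ hy) (not_le.2 hm)
    have := new_codes hE hK hl
    rwa [hrowN K hex, ← rowOf_congr hlow (by omega)] at this

end Pool.Agent.H681.OR
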