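import Pool.Agent.H681.OR.Run

/-!
# The limit of the construction
-/

set_option autoImplicit false

namespace Pool.Agent.H681.OR

open Pool.Agent.NPC Pool.Agent.H620R2.Gauge
open Pool.Agent.TH678.GC (join)
open Pool.Agent.Y626.WC (cut cut_cut exists_self)

/-- The limit of a sequence of oracles. -/
theorem exists_limit (G : Oracle → Prop) (R : ℕ → Oracle → Prop) (h0 : ∃ E, G E)
    (hG : ∀ E, (∀ n, ∃ E', G E' ∧ Agree n E' E) → G E)
    (hR : ∀ i E n, G E → ∃ E', G E' ∧ Agree n E E' ∧ ∃ n', ∀ E'', Agree n' E' E'' → R i E'') :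
    ∃ E, G E ∧ ∀ i, R i E := by
  classical
  choose! F hF1 hF2 N hN using hR
  obtain ⟨E₀, hE₀⟩ := h0
  -- the stages
  let st : ℕ → Oracle × ℕ := fun i => Nat.rec (E₀, 0)
    (fun i s => (F i s.1 s.2, max (s.2 + 1) (N i s.1 s.2))) i
  have st0 : st 0 = (E₀, 0) := rfl
  have sts : ∀ i, st (i + 1) = (F i (st i).1 (st i).2,
      max ((st i).2 + 1) (N i (st i).1 (st i).2)) := fun i => rfl
  have hGs : ∀ i, G (st i).1 := by
    intro i
    induction i with
    | zero => exact hE₀
    | succ i ih => rw [sts]; exact hF1 i _ _ ih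
  have hlt : ∀ i, (st i).2 < (st (i + 1)).2 := by
    intro i
    rw [sts]
    exact lt_of_lt_of_le (Nat.lt_succ_self _) (le_max_left _ _)
  have hmono : ∀ i d, (st i).2 ≤ (st (i + d)).2 := by
    intro i d
    induction d with
    | zero => exact le_rfl
    | succ d ih => exact ih.trans (hlt _).le
  have hge : ∀ i, i ≤ (st i).2 := by
    intro i
    induction i with
    | zero => exact Nat.zero_le _
    | succ i ih => exact lt_of_le_of_lt ih (hlt i)
  have hag : ∀ i d, Agree (st i).2 (st i).1 (st (i + d)).1 := by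
    intro i d
    induction d with
    | zero => exact fun z _ => rfl
    | succ d ih =>
      refine ih.trans ?_
      have h1 := hF2 (i + d) (st (i + d)).1 (st (i + d)).2 (hGs _)
      have h2 : (st (i + (d + 1))).1 = F (i + d) (st (i + d)).1 (st (i + d)).2 := by
        rw [← add_assoc, sts]
      rw [h2]
      exact h1.mono (hmono i d)
  let E : Oracle := fun z => (st (z.length + 1)).1 z
  have hE : ∀ i, Agree (st i).2 (st i).1 E := by
    intro i z hz
    show (st i).1 z = (st (z.length + 1)).1 z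
    rcases le_total i (z.length + 1) with h | h
    · obtain ⟨d, hd⟩ := Nat.exists_eq_add_of_le h
      rw [hd]
      exact hag i d z hz
    · obtain ⟨d, hd⟩ := Nat.exists_eq_add_of_le h
      rw [hd]
      exact (hag (z.length + 1) d z (lt_of_lt_of_le (Nat.lt_succ_self _) (hge _))).symm
  refine ⟨E, hG E fun n => ⟨(st n).1, hGs n, (hE n).mono (hge n)⟩, fun i => ?_⟩
  have h1 := hN i (st i).1 (st i).2 (hGs i)
  refine h1 E ?_
  have h2 := hE (i + 1)
  rw [sts] at h2
  exact h2.mono (le_max_right _ _)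

/-! ### Numbers -/

theorem eval_le_pow (p : Polynomial ℕ) {d : ℕ} (hd : p.natDegree ≤ d) :
    ∃ C, ∀ n, 1 ≤ n → p.eval n ≤ C * n ^ d := by
  refine ⟨∑ i ∈ Finset.range (p.natDegree + 1), p.coeff i, fun n hn => ?_⟩
  rw [Polynomial.eval_eq_sum_range, Finset.sum_mul]
  refine Finset.sum_le_sum fun i hi => Nat.mul_le_mul_left _ (Nat.pow_le_pow_right hn ?_)
  rw [Finset.mem_range] at hi
  omega

theorem succ_le_two_pow (n : ℕ) : n + 1 ≤ 2 ^ n := Nat.lt_two_pow_self

/-- The input is short. -/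
theorem input_length (s : List Bool) (k b : ℕ) (ys : List Bool) (hys : ys.length = k * (b + 1)) :
    (pairBits s (bits (List.replicate (2 ^ b) true, ys))).length ≤ (2 * s.length + 4 * k + 8) *
      2 ^ b := by
  rw [pairBits_len, bits_length, sz_pair]
  have h1 := sz_listBool_le (List.replicate (2 ^ b) true)
  have h2 := sz_listBool_le ys
  rw [List.length_replicate] at h1
  rw [hys] at h2
  have h3 := succ_le_two_pow b
  have h4 : k * (b + 1) ≤ k * 2 ^ b := Nat.mul_le_mul_left k h3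
  have h5 : 1 ≤ 2 ^ b := Nat.one_le_two_pow
  nlinarith [Nat.zero_le (s.length * (2 ^ b - 1)), Nat.mul_le_mul_left s.length h5]

theorem exists_big (p : Polynomial ℕ) (k L : ℕ) (hk : p.natDegree < k) : ∃ B, ∀ b, B ≤ b →
    ∀ l, l ≤ L * 2 ^ b → p.eval l + 3 ≤ 2 ^ (k * (b + 1) - 2) := by
  obtain ⟨k, rfl⟩ : ∃ k', k = k' + 1 := ⟨k - 1, by omega⟩
  obtain ⟨C, hC⟩ := eval_le_pow p (Nat.lt_succ_iff.1 hk)
  refine ⟨C * (L + 1) ^ k + 4, fun b hb l hl => ?_⟩
  have h1 : 1 ≤ 2 ^ b := Nat.one_le_two_pow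
  have h2 : p.eval l ≤ p.eval ((L + 1) * 2 ^ b) := eval_mono p (hl.trans (by nlinarith))
  have h3 := hC ((L + 1) * 2 ^ b) (by nlinarith)
  have h4 : C * ((L + 1) * 2 ^ b) ^ k = C * (L + 1) ^ k * 2 ^ (b * k) := by
    rw [mul_pow, ← pow_mul]; ring
  have h5 : C * (L + 1) ^ k + 3 ≤ 2 ^ (b - 1) := by
    have := succ_le_two_pow (b - 1)
    omega
  have h6 : 1 ≤ 2 ^ (b * k) := Nat.one_le_two_pow
  have h7 : (C * (L + 1) ^ k + 3) * 2 ^ (b * k) ≤ 2 ^ (b - 1) * 2 ^ (b * k) :=
    Nat.mul_le_mul_right _ h5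
  have h8 : 2 ^ (b - 1) * 2 ^ (b * k) ≤ 2 ^ ((k + 1) * (b + 1) - 2) := by
    rw [← pow_add]
    refine Nat.pow_le_pow_right (by norm_num) ?_
    have : (k + 1) * (b + 1) = b * k + k + b + 1 := by ring
    omega
  have h9 : (C * (L + 1) ^ k + 3) * 2 ^ (b * k) = C * (L + 1) ^ k * 2 ^ (b * k) +
      3 * 2 ^ (b * k) := by ring
  omega

theorem width_eq (k b : ℕ) (ys : List Bool) (hys : ys.length = k * (b + 1)) :
    width (List.replicate (2 ^ b) true, ys) = k := by
  unfold width
  simp only [List.length_replicate, Nat.log_pow (le_refl 2), hys]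
  rw [Nat.div_eq_iff (by omega)]
  constructor
  · omega
  · omega

section

variable (Φ : ℕ → List Bool → Oracle → Prop) (D : Oracle)

/-- The algorithm `M` with the advice `s` fails on some instance of width `k`. -/
def Fails (e : Alg × List Bool × ℕ) (E : Oracle) : Prop :=
  e.1.p.natDegree < e.2.2 → ∃ (a : List Bool × List Bool) (b : Bool), width a = e.2.2 ∧
    (Mini (join D E) a.2 ↔ b = true) ∧ e.1.out (join D E) (pairBits e.2.1 (bits a)) ≠ some [b]

variable {Φ D}

theorem exists_good : ∃ E, Good Φ D E := by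
  obtain ⟨E, h, _⟩ := exists_world Φ D (fun _ => false) 5 le_rfl
    ⟨fun m h1 h2 => absurd h1 (by omega), fun m h1 h2 => absurd h1 (by omega), fun K hK h => by
      have := hK.1
      unfold Key.len at h
      omega⟩ ∅ ∅ [true, false, true, true, true] ⟨rfl, _, rfl⟩
    ⟨by simp, by simp, by simp, by simp, by simp, by simp⟩ (by intro q hq; simp at hq)
    (by simp) true
  exact ⟨E, h⟩

theorem fails_step (e : Alg × List Bool × ℕ) (E : Oracle) (n : ℕ) (hE : Good Φ D E) :
    ∃ E', Good Φ D E' ∧ Agree n E E' ∧ ∃ n', ∀ E'', Agree n' E' E'' → Fails D e E'' := by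
  obtain ⟨M, s, k⟩ := e
  by_cases hk : M.p.natDegree < k
  swap
  · exact ⟨E, hE, fun z _ => rfl, 0, fun E'' _ h => absurd h hk⟩
  obtain ⟨B, hB⟩ := exists_big M.p k (2 * s.length + 4 * k + 8) hk
  set b := B + n + 5 with hb
  set m₀ := k * (b + 1) with hm₀
  have hkb : b + 1 ≤ m₀ := Nat.le_mul_of_pos_left _ (by omega)
  let ys : List Bool := true :: false :: List.replicate (m₀ - 2) true
  have hys : Row m₀ ys := ⟨by simp only [ys, List.length_cons, List.length_replicate]; omega,
    _, rfl⟩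
  set a : List Bool × List Bool := (List.replicate (2 ^ b) true, ys) with ha
  have h1 := input_length s k b ys hys.1
  obtain ⟨E', c, h2, h3, h4, h5⟩ := fool (by omega : 5 ≤ m₀) (hE.goodB m₀) M
    (pairBits s (bits a)) hys (hB b (by omega) _ h1)
  obtain ⟨qb, hqb⟩ := M.out_local
  obtain ⟨Q, _, hQ1, hQ2⟩ := hqb (join D E') (pairBits s (bits a))
  refine ⟨E', h2, h3.mono (by omega), 2 * m₀ + qb.eval (pairBits s (bits a)).length, ?_⟩
  intro E'' hag _
  refine ⟨a, c, width_eq k b ys hys.1, ?_, ?_⟩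
  · rw [← h4]
    exact (mini_congr hag (by show 2 * ys.length ≤ _; rw [hys.1]; omega)).symm
  · show M.out (join D E'') (pairBits s (bits a)) ≠ some [c]
    rw [hQ2 (join D E'') fun q hq => (join_congr hag ((hQ1 q hq).trans (by omega))).symm]
    exact h5

/-- The oracle. -/
theorem exists_oracle (Φ : ℕ → List Bool → Oracle → Prop) (D : Oracle) :
    ∃ E, Good Φ D E ∧ ∀ e, Fails D e E := by
  have hne : Nonempty (Alg × List Bool × ℕ) := ⟨⟨⟨fun _ => [], ?_, 0⟩, [], 0⟩⟩
  obtain ⟨f, hf⟩ := exists_surjective_nat (Alg × List Bool × ℕ)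
  obtain ⟨E, h1, h2⟩ := exists_limit (Good Φ D) (fun i => Fails D (f i)) exists_good
    (fun E h => Good.of_local h) (fun i E n hE => fails_step (f i) E n hE)
  refine ⟨E, h1, fun e => ?_⟩
  obtain ⟨i, rfl⟩ := hf e
  exact h2 i
  exact Pool.Agent.H622R2.polyTime_of_poly_list (NPC.Poly.const [])

end

end Pool.Agent.H681.OR
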