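import Pool.Agent.H681.OR.LogSat
import Pool.Agent.H681.OR.Stage

/-!
# The main theorem
-/

set_option autoImplicit false

namespace Pool.Agent.H681.OR

open Pool.Agent.NPC Pool.Agent.H620R2.Gauge Pool.Agent.H622R2 Pool.Agent.Y626.WG
open Pool.Agent.TH678.GC (join)
open Pool.Agent.Y626.WC (InFPT)

/-- The canonical problem is in `M[1]`. -/
theorem inM_canonical (A : Oracle) : InM A width (fun a => Mini A a.2) := by
  have h2 : NPC.Poly (fun z : List Bool => (unpair z).2) := NPC.Poly.snd poly_unpair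
  have hp : NPC.Poly (fun z : List Bool =>
      ((unbits (List Bool × List Bool) (unpair z).2).getD ([], [])).2) :=
    NPC.Poly.snd (Poly.optGetD (poly_unbits.comp h2) (NPC.Poly.const _))
  obtain ⟨M, hM⟩ := IsFP.of_poly (A := A) hp
  refine ⟨fun _ => [], fun k => k, fun a => a.2, M, Computable.const [], Computable.id,
    fun a => ⟨?_, ?_, Iff.rfl⟩⟩
  · rw [hM]
    beta_reduce
    rw [unpair_pairBits]
    dsimp only
    rw [unbits_bits, Option.getD_some]
  · have h3 : a.2.length ≤ width a * (Nat.log 2 a.1.length + 1) := by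
      unfold width
      have h4 := Nat.lt_div_mul_add (a := a.2.length + Nat.log 2 a.1.length)
        (b := Nat.log 2 a.1.length + 1) (by omega)
      omega
    refine h3.trans (Nat.mul_le_mul_left _ (Nat.add_le_add_right (Nat.log_mono_right ?_) 1))
    rw [bits_length, sz_pair a.1 a.2]
    have := length_lt_sz a.1
    omega

/-- Everything collapses to `M[1]`, but `M[1]` is hard. -/
theorem main (D : Oracle) (Φ : ℕ → List Bool → Oracle → Prop) : ∃ E : Oracle,
    (∀ (α : Type) [TEnc α] (κ : α → ℕ) (P : α → Prop),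
      (InFPT (join D E) κ P → InM1 (join D E) κ P) ∧
      (InM (join D E) κ P ↔ InM1 (join D E) κ P) ∧
      (∀ t, 1 ≤ t → (InWs t (join D E) κ P ↔ InM1 (join D E) κ P) ∧
        (InAs t (join D E) κ P ↔ InM1 (join D E) κ P)) ∧
      (InAWs (join D E) κ P ↔ InM1 (join D E) κ P) ∧
      (InWPs (join D E) κ P ↔ InM1 (join D E) κ P) ∧
      ∀ i, Reduces (Φ i) (join D E) κ P → InM1 (join D E) κ P) ∧
    InM (join D E) width (fun a => Mini (join D E) a.2) ∧
    ∀ (k : ℕ) (M : Alg) (s : List Bool), M.p.natDegree < k →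
      ∃ (a : List Bool × List Bool) (b : Bool), width a = k ∧
        (Mini (join D E) a.2 ↔ b = true) ∧ M.out (join D E) (pairBits s (bits a)) ≠ some [b] := by
  classical
  obtain ⟨f, hf⟩ : ∃ f : ℕ → Alg, Function.Surjective f := by
    have : Nonempty Alg := ⟨⟨fun _ => [], polyTime_of_poly_list (NPC.Poly.const []), 0⟩⟩
    exact exists_surjective_nat Alg
  let Ψ : ℕ → List Bool → Oracle → Prop := fun i =>
    if i = 0 then SatP else if i % 2 = 1 then GuessP (f (i / 2)) else Φ ((i - 2) / 2)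
  have e0 : Ψ 0 = SatP := rfl
  have e1 : ∀ i, Ψ (2 * i + 1) = GuessP (f i) := by
    intro i
    simp only [Ψ]
    rw [if_neg (by omega), if_pos (by omega)]
    congr 2
    omega
  have e2 : ∀ i, Ψ (2 * i + 2) = Φ i := by
    intro i
    simp only [Ψ]
    rw [if_neg (by omega), if_neg (by omega)]
    congr 1
    omega
  obtain ⟨E, hE, hF⟩ := exists_oracle Ψ D
  refine ⟨E, fun α _ κ P => ?_, inM_canonical _, fun k M s hk => ?_⟩
  · have hAW : InAWs (join D E) κ P → InM (join D E) κ P := fun h =>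
      inM_of_reduces hE 0 (by rw [e0]; exact reduces_of_inAWs h)
    have hWP : InWPs (join D E) κ P → InM (join D E) κ P := fun h => by
      obtain ⟨V, hV⟩ := reduces_of_inWPs h
      obtain ⟨i, rfl⟩ := hf V
      exact inM_of_reduces hE (2 * i + 1) (by rw [e1]; exact hV)
    have h1M : InM1 (join D E) κ P → InM (join D E) κ P := fun h => hWP (inWPs_of_inM1 h)
    refine ⟨fun h => inM1_of_inM (inM_of_inFPT hE h), ⟨inM1_of_inM, h1M⟩, fun t ht =>
      ⟨⟨fun h => inM1_of_inM (hAW (inAWs_of_inAs (inAs_of_inWs h))), fun h =>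
        inWs_mono ht (inWs_of_inM (h1M h))⟩, ⟨fun h => inM1_of_inM (hAW (inAWs_of_inAs h)),
        fun h => inAs_of_inWs (inWs_mono ht (inWs_of_inM (h1M h)))⟩⟩,
      ⟨fun h => inM1_of_inM (hAW h), fun h => inAWs_of_inAs (inAs_of_inWs (inWs_of_inM (h1M h)))⟩,
      ⟨fun h => inM1_of_inM (hWP h), fun h => inWPs_of_inM1 h⟩,
      fun i h => inM1_of_inM (inM_of_reduces hE (2 * i + 2) (by rw [e2]; exact h))⟩
  · obtain ⟨a, b, h1, h2, h3⟩ := hF (M, s, k) hk
    exact ⟨a, b, h1, h2, h3⟩

end Pool.Agent.H681.OR
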