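import Pool.Agent.H681.OR.Coll
import Pool.Graph.R_seed8.Y626.WC.Core

/-!
# The inclusions between the classes
-/

set_option autoImplicit false

namespace Pool.Agent.H681.OR

open Pool.Agent.NPC Pool.Agent.H620R2.Gauge Pool.Agent.H622R2 Pool.Agent.Y626.WG
open Pool.Agent.TH678.GC (join)
open Pool.Agent.TH678.WP (uPoly_log poly_replicate computable_pairBits computable_replicate)
open Pool.Agent.Y626.WC (isFP_total InFPT sat_one)

theorem lg_pos {α : Type} [TEnc α] (a : α) : 1 ≤ lg a := Nat.le_add_left _ _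

theorem computable_add {f h : ℕ → ℕ} (hf : Computable f) (hh : Computable h) :
    Computable (fun k => f k + h k) := Primrec.nat_add.to_comp.comp hf hh

theorem computable_mul {f h : ℕ → ℕ} (hf : Computable f) (hh : Computable h) :
    Computable (fun k => f k * h k) := Primrec.nat_mul.to_comp.comp hf hh

/-- `FPT` is contained in `M[1]`. -/
theorem inM_of_inFPT {Φ : ℕ → List Bool → Oracle → Prop} {D E : Oracle} (hE : Good Φ D E)
    {α : Type} [TEnc α] {κ : α → ℕ} {P : α → Prop} (h : InFPT (join D E) κ P) :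
    InM (join D E) κ P := by
  classical
  obtain ⟨π, M, hπ, h⟩ := h
  obtain ⟨y1, h1, h2⟩ := hE.yes 5 le_rfl
  obtain ⟨y0, h3, h4⟩ := hE.no 5 le_rfl
  have hp : NPC.Poly (fun z : List Bool => if z = [true] then y1 else y0) :=
    NPC.Poly.ite (NPC.Poly.decide_eq NPC.Poly.id (NPC.Poly.const [true])) (NPC.Poly.const _)
      (NPC.Poly.const _)
  obtain ⟨M', hM'⟩ := IsFP.comp (IsFP.of_poly (A := join D E) hp) (isFP_total (join D E) M)
  choose b hb1 hb2 using h
  refine ⟨π, fun _ => 5, fun a => if b a = true then y1 else y0, M', hπ, Computable.const 5,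
    fun a => ⟨?_, ?_, ?_⟩⟩
  · rw [hM']
    beta_reduce
    rw [hb1 a, Option.getD_some]
    cases b a <;> simp
  · have := lg_pos a
    have h5 := h1.1
    have h6 := h3.1
    by_cases hb : b a = true
    · simp only [hb, if_true]; omega
    · simp only [hb]; simp only [Bool.false_eq_true, if_false]; omega
  · rw [hb2 a]
    by_cases hb : b a = true
    · simp only [hb, if_true, true_iff]; exact h2
    · simp only [hb]; simp only [Bool.false_eq_true, if_false, false_iff]; exact h4

/-- The model-checking problem. -/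
def SatP (v : List Bool) (X : Oracle) : Prop := ∃ I : Inst, bits I = v ∧ I.Sat X

theorem flat_short (I : Inst) {r : ℕ} {l : List ℕ} (hl : (r, l) ∈ I.atoms) (v : List ℕ) {g L : ℕ}
    (hg : I.param ≤ g) (hL : ∀ l ∈ I.labels, l.length ≤ L) :
    (l.flatMap fun i => I.labels.getD (v.getD i 0) []).length ≤ g * L := by
  have h0 : ∀ i, (I.labels.getD i []).length ≤ L := by
    intro i
    rw [List.getD_eq_getElem?_getD]
    rcases h : I.labels[i]? with _ | a
    · simp
    · rw [Option.getD_some]
      exact hL _ (List.mem_of_getElem? h)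
  have h1 : ∀ l : List ℕ, (l.flatMap fun i => I.labels.getD (v.getD i 0) []).length ≤
      l.length * L := by
    intro l
    induction l with
    | nil => simp
    | cons a l ih =>
      rw [List.flatMap_cons, List.length_append, List.length_cons, Nat.succ_mul]
      have := h0 (v.getD a 0)
      omega
  refine (h1 l).trans (Nat.mul_le_mul_right _ ?_)
  have h2 : l.length + 1 ≤ (I.atoms.map fun p => p.2.length + 1).sum :=
    List.le_sum_of_mem (List.mem_map.2 ⟨(r, l), hl, rfl⟩)
  unfold Inst.param at hg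
  omega

theorem holds_congr (N : ℕ) {P P' : List ℕ → Prop} (h : ∀ v, P v ↔ P' v) :
    ∀ (b : Bool) (bs : List ℕ) (v : List ℕ), Holds N P b bs v ↔ Holds N P' b bs v
  | true, [], v => h v
  | false, [], v => h v
  | true, s :: bs, v => by
    unfold Holds
    exact exists_congr fun w => and_congr_right fun _ => and_congr_right fun _ =>
      holds_congr N h false bs (v ++ w)
  | false, s :: bs, v => by
    unfold Holds
    exact forall_congr' fun w => forall₂_congr fun _ _ => holds_congr N h true bs (v ++ w)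

theorem sat_upTo {I : Inst} {A : Oracle} {g L q : ℕ} (hg : I.param ≤ g)
    (hL : ∀ l ∈ I.labels, l.length ≤ L) (hq : g * L ≤ q) : I.Sat A ↔ I.Sat (upTo q A) := by
  unfold Inst.Sat
  refine holds_congr _ (fun v => ?_) _ _ _
  have : I.atoms.map (I.atom A v) = I.atoms.map (I.atom (upTo q A) v) := by
    refine List.map_congr_left fun a ha => ?_
    obtain ⟨r, l⟩ := a
    cases r with
    | zero =>
      show A _ = upTo q A _
      unfold upTo
      rw [if_pos ((flat_short I ha v hg hL).trans hq)]
    | succ r => rfl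
  rw [this]

/-- `AW[*]` is contained in the class of the model-checking problem. -/
theorem reduces_of_inAWs {A : Oracle} {α : Type} [TEnc α] {κ : α → ℕ} {P : α → Prop}
    (h : InAWs A κ P) : Reduces SatP A κ P := by
  obtain ⟨π, g, R, M, hπ, hg, h⟩ := h
  refine ⟨π, fun k => g k * g k, fun a => bits (R a), M, hπ, computable_mul hg hg, fun a => ?_⟩
  obtain ⟨h1, _, h2, h3, h4⟩ := h a
  refine ⟨h1, h4.trans ?_⟩
  rw [sat_upTo (I := R a) (A := A) (g := g (κ a)) (L := g (κ a) * lg a)
    (q := g (κ a) * g (κ a) * lg a) (by omega) h3 (by rw [mul_assoc])]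
  constructor
  · exact fun h => ⟨R a, rfl, h⟩
  · rintro ⟨I, h5, h6⟩
    rw [← bits_injective h5]
    exact h6

theorem inAWs_of_inAs {t : ℕ} {A : Oracle} {α : Type} [TEnc α] {κ : α → ℕ} {P : α → Prop}
    (h : InAs t A κ P) : InAWs A κ P := by
  obtain ⟨π, g, R, M, hπ, hg, h⟩ := h
  refine ⟨π, fun k => g k + t, R, M, hπ, computable_add hg (Computable.const t), fun a => ?_⟩
  obtain ⟨h1, ⟨h2, h3⟩, h4, h5, h6⟩ := h a
  beta_reduce
  exact ⟨h1, h2, by omega, fun l hl => (h5 l hl).trans (Nat.mul_le_mul_right _ (by omega)), h6⟩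

theorem inAs_of_inWs {t : ℕ} {A : Oracle} {α : Type} [TEnc α] {κ : α → ℕ} {P : α → Prop}
    (h : InWs t A κ P) : InAs t A κ P := by
  obtain ⟨π, g, R, M, hπ, hg, h⟩ := h
  exact ⟨π, g, R, M, hπ, hg, fun a => ⟨(h a).1, (h a).2.1.1, (h a).2.2.1, (h a).2.2.2.1,
    (h a).2.2.2.2⟩⟩

theorem inWs_mono {t t' : ℕ} (ht : t ≤ t') {A : Oracle} {α : Type} [TEnc α] {κ : α → ℕ}
    {P : α → Prop} (h : InWs t A κ P) : InWs t' A κ P := by
  obtain ⟨π, g, R, M, hπ, hg, h⟩ := h
  exact ⟨π, g, R, M, hπ, hg, fun a => ⟨(h a).1, ⟨⟨(h a).2.1.1.1, (h a).2.1.1.2.trans ht⟩,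
    (h a).2.1.2⟩, (h a).2.2.1, (h a).2.2.2.1, (h a).2.2.2.2⟩⟩

/-- The problem solved by the machine `V`. -/
def GuessP (V : Alg) (v : List Bool) (X : Oracle) : Prop :=
  ∃ w : List Bool, w.length ≤ (unpair v).1.length ∧ V.out X (pairBits w (unpair v).2) = some [true]

/-- `W[P]` is contained in the classes of the problems solved by the machines. -/
theorem reduces_of_inWPs {A : Oracle} {α : Type} [TEnc α] {κ : α → ℕ} {P : α → Prop}
    (h : InWPs A κ P) : ∃ V : Alg, Reduces (GuessP V) A κ P := by
  obtain ⟨π, g, r, M, V, hπ, hg, h⟩ := h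
  refine ⟨V, fun k => pairBits (π k) (List.replicate (g k) true), g,
    fun a => pairBits (List.replicate (g (κ a) * lg a) true) (r a), ?_⟩
  have h1 : NPC.Poly (fun z : List Bool => (unpair z).1) := NPC.Poly.fst poly_unpair
  have h2 : NPC.Poly (fun z : List Bool => (unpair z).2) := NPC.Poly.snd poly_unpair
  have hp : NPC.Poly (fun x : List Bool => pairBits (unpair (unpair x).1).1 (unpair x).2) :=
    poly_pb (h1.comp h1) h2
  have hu : NPC.Poly (fun x : List Bool => List.replicate ((unpair (unpair x).1).2.length *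
      (Nat.log 2 (unpair x).2.length + 1)) true) :=
    poly_replicate ((UPoly.length (h2.comp h1)).mul (uPoly_log h2)) true
  obtain ⟨M', hM'⟩ := IsFP.pair (IsFP.of_poly (A := A) hu)
    (IsFP.comp (isFP_total A M) (IsFP.of_poly hp))
  refine ⟨M', computable_pairBits.comp hπ (computable_replicate.comp hg), hg, fun a => ⟨?_, ?_⟩⟩
  · rw [hM']
    beta_reduce
    rw [unpair_pairBits]
    dsimp only
    rw [unpair_pairBits]
    dsimp only
    rw [(h a).1, Option.getD_some, List.length_replicate]
    rfl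
  · rw [(h a).2]
    unfold GuessP
    rw [unpair_pairBits]
    dsimp only
    rw [List.length_replicate]

/-- A uniform version of the construction of nonadaptive algorithms. -/
theorem exists_tt {Q : List Bool → List (List Bool)} {H : List Bool × List Bool → List Bool}
    (hQ : NPC.Poly Q) (hH : NPC.Poly H) :
    ∃ M : Alg, ∀ (A : Oracle) (x : List Bool), M.out A x = some (H (x, (Q x).map A)) := by
  obtain ⟨q, hq⟩ := hQ.sz_le
  refine ⟨A2.ttAlg hQ hH (q.comp (Polynomial.C 4 * Polynomial.X + Polynomial.C 1)),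
    fun A x => ?_⟩
  have h1 := length_lt_sz (Q x)
  have h2 : (Q x).length + 1 ≤
      (q.comp (Polynomial.C 4 * Polynomial.X + Polynomial.C 1)).eval x.length :=
    A2.sz_eval_le (h1.trans_le (hq x))
  exact A2.tt_run hQ hH (q.comp (Polynomial.C 4 * Polynomial.X + Polynomial.C 1)) A x
    ((q.comp (Polynomial.C 4 * Polynomial.X + Polynomial.C 1)).eval x.length) 0 (Nat.zero_le _)
    (by omega)

/-- `M[1]` is contained in `W[P]`. -/
theorem inWPs_of_inM {A : Oracle} {α : Type} [TEnc α] {κ : α → ℕ} {P : α → Prop}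
    (h : InM A κ P) : InWPs A κ P := by
  obtain ⟨π, g, r, M, hπ, hg, h⟩ := h
  have h1 : NPC.Poly (fun z : List Bool => (unpair z).1) := NPC.Poly.fst poly_unpair
  have h2 : NPC.Poly (fun z : List Bool => (unpair z).2) := NPC.Poly.snd poly_unpair
  obtain ⟨V, hV⟩ := exists_tt (Q := fun z => [(unpair z).2 ++ (unpair z).1])
    (H := fun p => if (unpair p.1).1.length = (unpair p.1).2.length then p.2 else [])
    (NPC.Poly.cons (NPC.Poly.append h2 h1) (NPC.Poly.const []))
    (NPC.Poly.ite (NPC.Poly.decide_eq (NPC.Poly.length (h1.comp (NPC.Poly.fst NPC.Poly.id)))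
      (NPC.Poly.length (h2.comp (NPC.Poly.fst NPC.Poly.id)))) (NPC.Poly.snd NPC.Poly.id)
      (NPC.Poly.const []))
  refine ⟨π, fun k => g k + g k, r, M, V, hπ, computable_add hg hg, fun a => ⟨(h a).1, ?_⟩⟩
  rw [(h a).2.2]
  have h3 := (h a).2.1
  have key : ∀ w : List Bool, V.out (upTo ((g (κ a) + g (κ a)) * lg a) A) (pairBits w (r a)) =
      some [true] ↔ w.length = (r a).length ∧ A (r a ++ w) = true := by
    intro w
    rw [hV, unpair_pairBits]
    dsimp only
    by_cases hw : w.length = (r a).length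
    · rw [if_pos hw, List.map_cons, List.map_nil]
      have h4 : upTo ((g (κ a) + g (κ a)) * lg a) A (r a ++ w) = A (r a ++ w) := by
        unfold upTo
        rw [if_pos]
        rw [List.length_append, hw, Nat.add_mul]
        omega
      rw [h4]
      simp [hw]
    · rw [if_neg hw]
      simp [hw]
  constructor
  · rintro ⟨w, h5, h6⟩
    refine ⟨w, ?_, (key w).2 ⟨h5, h6⟩⟩
    rw [h5, Nat.add_mul]
    omega
  · rintro ⟨w, _, h6⟩
    exact ⟨w, (key w).1 h6⟩

end Pool.Agent.H681.OR
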