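import Pool.Agent.H681.OR.OneB

/-!
# Formulas with oracle atoms
-/

set_option autoImplicit false

namespace Pool.Agent.H681.OR

open Pool.Agent.NPC Pool.Agent.H620R2.Gauge Pool.Agent.H622R2 Pool.Agent.Y626.WG
open Pool.Agent.TH678.WP (uPoly_log poly_replicate computable_pairBits computable_replicate log_size)
open Pool.Agent.Y626.WC (isFP_total InFPT sat_one)

theorem poly_replicate' {α β : Type} [TEnc α] [TEnc β] {n : α → ℕ} {f : α → β} (hn : UPoly n)
    (hf : NPC.Poly f) : NPC.Poly (fun a => List.replicate (n a) (f a)) :=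
  (NPC.Poly.map (F := fun a (_ : Unit) => f a) hn (hf.comp (NPC.Poly.fst NPC.Poly.id))).congr
    fun a => by simp

/-- the literal which asks for `y w` -/
def miniLit (y : List Bool) : Lit :=
  (true, Sum.inr (y.map Sum.inl ++ (List.range y.length).map Sum.inr))

/-- the formula -/
def miniFml (n : ℕ) (y : List Bool) : Fml := (2 * y.length, List.replicate n [miniLit y])

theorem poly_miniFml {α : Type} [TEnc α] {n : α → ℕ} {y : α → List Bool} (hn : UPoly n)
    (hy : NPC.Poly y) : NPC.Poly (fun a => miniFml (n a) (y a)) := by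
  have hl : UPoly (fun a => (y a).length) := UPoly.length hy
  have h1 : NPC.Poly (fun a => (y a).map (Sum.inl : Bool → Bool ⊕ ℕ)) :=
    NPC.Poly.map (F := fun _ b => (Sum.inl b : Bool ⊕ ℕ)) hy (NPC.Poly.inl (NPC.Poly.snd NPC.Poly.id))
  have h2 : NPC.Poly (fun a => (List.range (y a).length).map (Sum.inr : ℕ → Bool ⊕ ℕ)) :=
    NPC.Poly.map (F := fun _ i => (Sum.inr i : Bool ⊕ ℕ)) hl.range
      (NPC.Poly.inr (NPC.Poly.snd NPC.Poly.id))
  have h3 : NPC.Poly (fun a => miniLit (y a)) :=
    NPC.Poly.pair (NPC.Poly.const true) (NPC.Poly.inr (NPC.Poly.append h1 h2))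
  exact NPC.Poly.pair (NPC.Poly.mul (NPC.Poly.const 2) hl.toPoly)
    (poly_replicate' hn (NPC.Poly.cons h3 (NPC.Poly.const [])))

theorem miniFml_gam (n : ℕ) (y : List Bool) : Gam 1 (miniFml n y) := by
  intro c hc
  have hc' : c = [miniLit y] := List.eq_of_mem_replicate hc
  subst hc'
  refine ⟨by simp, fun l hl => ?_⟩
  rw [List.mem_singleton] at hl
  subst hl
  refine ⟨?_, fun i hi => ?_⟩
  · rw [List.length_append, List.length_map, List.length_map, List.length_range]
    show _ ≤ 2 * y.length
    omega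
  · rw [List.mem_append, List.mem_map, List.mem_map] at hi
    show i < 2 * y.length
    rcases hi with ⟨b, _, hb⟩ | ⟨j, hj, hj'⟩
    · exact absurd hb (by simp)
    · rw [List.mem_range] at hj
      have : j = i := Sum.inr_injective hj'
      omega

theorem miniFml_sat (A : Oracle) {n : ℕ} (hn : n ≠ 0) (y : List Bool) :
    FSat A (miniFml n y) ↔ Mini A y := by
  have key : ∀ x : List Bool, lval A x (miniLit y) = true ↔
      A (y ++ (List.range y.length).map fun i => x.getD i false) = true := by
    intro x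
    show decide (A ((y.map Sum.inl ++ (List.range y.length).map Sum.inr).map (tval x)) = true) =
      true ↔ _
    rw [decide_eq_true_eq, List.map_append, List.map_map, List.map_map]
    have h1 : y.map (tval x ∘ Sum.inl) = y := by
      rw [show (tval x ∘ Sum.inl) = id from rfl, List.map_id]
    rw [h1]
    rfl
  constructor
  · rintro ⟨x, _, hx⟩
    obtain ⟨l, hl, hv⟩ := hx [miniLit y] (List.mem_replicate.2 ⟨hn, rfl⟩)
    rw [List.mem_singleton] at hl
    subst hl
    exact ⟨_, by rw [List.length_map, List.length_range], (key x).1 hv⟩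
  · rintro ⟨w, hw, hA⟩
    refine ⟨w ++ List.replicate y.length false, ?_, fun c hc => ?_⟩
    · rw [List.length_append, hw, List.length_replicate]
      show _ = 2 * y.length
      omega
    · have hc' : c = [miniLit y] := List.eq_of_mem_replicate hc
      subst hc'
      refine ⟨_, List.mem_singleton_self _, (key _).2 ?_⟩
      have h1 : (List.range y.length).map (fun i => (w ++ List.replicate y.length false).getD i
          false) = w := by
        refine List.ext_getElem (by rw [List.length_map, List.length_range, hw]) fun i h1 h2 => ?_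
        rw [List.getElem_map, List.getElem_range, List.getD_eq_getElem _ _ (by
          rw [List.length_append]; omega), List.getElem_append_left h2]
      rw [h1]
      exact hA

theorem inM1_of_inM {A : Oracle} {α : Type} [TEnc α] {κ : α → ℕ} {P : α → Prop}
    (h : InM A κ P) : InM1 A κ P := by
  obtain ⟨π, g, r, M, hπ, hg, h⟩ := h
  have h1 : NPC.Poly (fun z : List Bool => (unpair z).1) := NPC.Poly.fst poly_unpair
  have h2 : NPC.Poly (fun z : List Bool => (unpair z).2) := NPC.Poly.snd poly_unpair
  have hp : NPC.Poly (fun z : List Bool => bits (miniFml (unpair (unpair z).2).2.length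
      (unpair z).1)) := poly_bits (poly_miniFml (UPoly.length (h2.comp h2)) h1)
  obtain ⟨M', hM'⟩ := IsFP.comp (IsFP.of_poly (A := A) hp)
    (IsFP.pair (isFP_total A M) (IsFP.of_poly NPC.Poly.id))
  have hn : ∀ a : α, (bits a).length ≠ 0 := fun a => by
    rw [bits_length]; exact (sz_pos a).ne'
  refine ⟨1, π, fun k => 4 * g k + 1, fun a => miniFml (bits a).length (r a), M', hπ,
    computable_add (computable_mul (Computable.const 4) hg) (Computable.const 1),
    fun a => ⟨?_, miniFml_gam _ _, ?_, ?_⟩⟩
  · rw [hM']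
    beta_reduce
    rw [(h a).1, Option.getD_some]
    simp only [unpair_pairBits]
  · beta_reduce
    set L := Nat.log 2 (bits (miniFml (bits a).length (r a))).length with hL
    have h3 : (bits a).length < (bits (miniFml (bits a).length (r a))).length := by
      rw [bits_length (miniFml (bits a).length (r a))]
      unfold miniFml
      rw [sz_pair]
      have := length_lt_sz (List.replicate (bits a).length [miniLit (r a)])
      rw [List.length_replicate] at this
      omega
    have h4 : 1 ≤ L := by
      rw [hL]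
      refine Nat.log_pos (by norm_num) ?_
      have := hn a
      omega
    have h5 : Nat.log 2 (bits a).length ≤ L := Nat.log_mono_right h3.le
    have h6 : lg a ≤ 2 * L := by unfold lg; omega
    have h7 : (r a).length ≤ g (κ a) * (2 * L) :=
      (h a).2.1.trans (Nat.mul_le_mul_left _ h6)
    unfold logParam
    rw [← hL]
    refine Nat.div_le_of_le_mul ?_
    show 2 * (r a).length + L - 1 ≤ L * (4 * g (κ a) + 1)
    have h8 : L * (4 * g (κ a) + 1) = 2 * (g (κ a) * (2 * L)) + L := by ring
    omega
  · rw [(h a).2.2]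
    exact (miniFml_sat A (hn a) (r a)).symm

/-! ### The formulas are checked by machines -/

/-- the question of a literal -/
def litQ (x : List Bool) (l : Lit) : List Bool :=
  Sum.elim (fun _ => []) (fun u => u.map (tval x)) l.2

/-- the value of a literal, given the list of the questions with a positive answer -/
def litV (x : List Bool) (Y : List (List Bool)) (l : Lit) : Bool :=
  Sum.elim (fun i => decide (x.getD i false = l.1))
    (fun u => decide (decide (u.map (tval x) ∈ Y) = l.1)) l.2

theorem poly_tmap {α : Type} [TEnc α] {x : α → List Bool} {u : α → List (Bool ⊕ ℕ)}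
    (hx : NPC.Poly x) (hu : NPC.Poly u) : NPC.Poly (fun a => (u a).map (tval (x a))) := by
  refine (NPC.Poly.map (F := fun a t => Sum.elim (fun c => c) (fun i => (x a).getD i false) t) hu
    ?_).congr fun a => ?_
  · refine Poly.sumElim (g := fun _ c => c) (h := fun p i => (x p.1).getD i false)
      (NPC.Poly.snd NPC.Poly.id) (NPC.Poly.snd NPC.Poly.id) ?_
    exact NPC.Poly.getD (hx.comp (NPC.Poly.fst (NPC.Poly.fst NPC.Poly.id)))
      (NPC.Poly.snd NPC.Poly.id) (NPC.Poly.const false)
  · congr 1
    funext t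
    cases t <;> rfl

theorem poly_litQ {α : Type} [TEnc α] {x : α → List Bool} {l : α → Lit}
    (hx : NPC.Poly x) (hl : NPC.Poly l) : NPC.Poly (fun a => litQ (x a) (l a)) := by
  unfold litQ
  refine Poly.sumElim (g := fun _ _ => []) (h := fun a u => u.map (tval (x a)))
    (NPC.Poly.snd hl) (NPC.Poly.const []) ?_
  exact poly_tmap (hx.comp (NPC.Poly.fst NPC.Poly.id)) (NPC.Poly.snd NPC.Poly.id)

theorem poly_litV {α : Type} [TEnc α] {x : α → List Bool} {Y : α → List (List Bool)} {l : α → Lit}
    (hx : NPC.Poly x) (hY : NPC.Poly Y) (hl : NPC.Poly l) :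
    NPC.Poly (fun a => litV (x a) (Y a) (l a)) := by
  unfold litV
  have hf : NPC.Poly (fun p : α × ℕ => p.1) := NPC.Poly.fst NPC.Poly.id
  have hf' : NPC.Poly (fun p : α × List (Bool ⊕ ℕ) => p.1) := NPC.Poly.fst NPC.Poly.id
  refine Poly.sumElim (g := fun a i => decide ((x a).getD i false = (l a).1))
    (h := fun a u => decide (decide (u.map (tval (x a)) ∈ Y a) = (l a).1))
    (NPC.Poly.snd hl) ?_ ?_
  · exact NPC.Poly.decide_eq (NPC.Poly.getD (hx.comp hf) (NPC.Poly.snd NPC.Poly.id)
      (NPC.Poly.const false)) (NPC.Poly.fst (hl.comp hf))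
  · exact NPC.Poly.decide_eq (NPC.Poly.dec_mem (poly_tmap (hx.comp hf')
      (NPC.Poly.snd NPC.Poly.id)) (hY.comp hf')) (NPC.Poly.fst (hl.comp hf'))

/-- the formula given by its code -/
def dF (z : List Bool) : Fml := (unbits Fml z).getD (0, [])

theorem poly_dF : NPC.Poly dF := Poly.optGetD poly_unbits (NPC.Poly.const _)

/-- the questions of the machine -/
def vQ (z : List Bool) : List (List Bool) :=
  (dF (unpair z).2).2.flatten.map fun l => litQ (unpair z).1 l

/-- the questions with a positive answer -/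
def yesL (L : List (List Bool)) (ans : List Bool) : List (List Bool) :=
  ((L.zip ans).filter fun q => q.2).map fun q => q.1

/-- all clauses are satisfied -/
def chk (x : List Bool) (Y : List (List Bool)) (cs : List (List Lit)) : Bool :=
  cs.all fun c => c.any fun l => litV x Y l

/-- the verdict of the machine -/
def vH (p : List Bool × List Bool) : List Bool :=
  bif decide ((unpair p.1).1.length = (dF (unpair p.1).2).1) &&
    chk (unpair p.1).1 (yesL (vQ p.1) p.2) (dF (unpair p.1).2).2 then [true] else []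

theorem poly_vQ : NPC.Poly vQ := by
  have h1 : NPC.Poly (fun z : List Bool => (unpair z).1) := NPC.Poly.fst poly_unpair
  have h2 : NPC.Poly (fun z : List Bool => (unpair z).2) := NPC.Poly.snd poly_unpair
  unfold vQ
  refine NPC.Poly.map (F := fun z l => litQ (unpair z).1 l)
    (NPC.Poly.flatten (NPC.Poly.snd (poly_dF.comp h2))) ?_
  exact poly_litQ (h1.comp (NPC.Poly.fst NPC.Poly.id)) (NPC.Poly.snd NPC.Poly.id)

theorem poly_yesL {α : Type} [TEnc α] {L : α → List (List Bool)} {ans : α → List Bool}
    (hL : NPC.Poly L) (ha : NPC.Poly ans) : NPC.Poly (fun a => yesL (L a) (ans a)) := by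
  unfold yesL
  refine NPC.Poly.map (F := fun _ (q : List Bool × Bool) => q.1) ?_
    (NPC.Poly.fst (NPC.Poly.snd NPC.Poly.id))
  exact NPC.Poly.filter (p := fun _ (q : List Bool × Bool) => q.2)
    (NPC.Poly.zip hL ha) (NPC.Poly.snd (NPC.Poly.snd NPC.Poly.id))

theorem poly_chk {α : Type} [TEnc α] {x : α → List Bool} {Y : α → List (List Bool)}
    {cs : α → List (List Lit)} (hx : NPC.Poly x) (hY : NPC.Poly Y) (hc : NPC.Poly cs) :
    NPC.Poly (fun a => chk (x a) (Y a) (cs a)) := by
  unfold chk
  refine NPC.Poly.all (p := fun a c => c.any fun l => litV (x a) (Y a) l) hc ?_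
  refine NPC.Poly.any (l := fun p : α × List Lit => p.2)
    (p := fun p l => litV (x p.1) (Y p.1) l) (NPC.Poly.snd NPC.Poly.id) ?_
  have hf : NPC.Poly (fun p : (α × List Lit) × Lit => p.1.1) :=
    NPC.Poly.fst (NPC.Poly.fst NPC.Poly.id)
  exact poly_litV (hx.comp hf) (hY.comp hf) (NPC.Poly.snd NPC.Poly.id)

theorem poly_vH : NPC.Poly vH := by
  have h0 : NPC.Poly (fun p : List Bool × List Bool => p.1) := NPC.Poly.fst NPC.Poly.id
  have h1 : NPC.Poly (fun p : List Bool × List Bool => (unpair p.1).1) :=
    (NPC.Poly.fst poly_unpair).comp h0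
  have h2 : NPC.Poly (fun p : List Bool × List Bool => dF (unpair p.1).2) :=
    poly_dF.comp ((NPC.Poly.snd poly_unpair).comp h0)
  have h3 : NPC.Poly (fun p : List Bool × List Bool => yesL (vQ p.1) p.2) :=
    poly_yesL (poly_vQ.comp h0) (NPC.Poly.snd NPC.Poly.id)
  unfold vH
  exact NPC.Poly.cond (NPC.Poly.and (NPC.Poly.decide_eq (NPC.Poly.length h1)
    (NPC.Poly.fst h2)) (poly_chk h1 h3 (NPC.Poly.snd h2))) (NPC.Poly.const _) (NPC.Poly.const _)

theorem mem_yes {A : Oracle} {L : List (List Bool)} {q : List Bool} (hq : q ∈ L) :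
    q ∈ yesL L (L.map A) ↔ A q = true := by
  unfold yesL
  rw [List.mem_map]
  constructor
  · rintro ⟨⟨a, b⟩, h1, rfl⟩
    rw [List.mem_filter] at h1
    obtain ⟨h2, h3⟩ := h1
    rw [List.zip_map_right, List.mem_map] at h2
    obtain ⟨⟨c, d⟩, h4, h5⟩ := h2
    simp only [Prod.map_apply, id_eq, Prod.mk.injEq] at h5
    obtain ⟨rfl, rfl⟩ := h5
    rw [List.mem_iff_getElem] at h4
    obtain ⟨i, h6, h7⟩ := h4
    rw [List.getElem_zip, Prod.mk.injEq] at h7
    rw [← h7.1, h7.2]
    exact h3
  · intro h
    refine ⟨(q, A q), ?_, rfl⟩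
    rw [List.mem_filter]
    refine ⟨?_, h⟩
    rw [List.zip_map_right, List.mem_map]
    obtain ⟨i, h6, h7⟩ := List.mem_iff_getElem.1 hq
    refine ⟨(q, q), ?_, rfl⟩
    rw [List.mem_iff_getElem]
    refine ⟨i, by rw [List.length_zip]; omega, ?_⟩
    rw [List.getElem_zip, h7]

theorem litV_eq {A : Oracle} {x : List Bool} {L : List (List Bool)} {l : Lit}
    (hl : litQ x l ∈ L) :
    litV x (yesL L (L.map A)) l = lval A x l := by
  obtain ⟨b, i | u⟩ := l
  · rfl
  · have h1 : u.map (tval x) ∈ L := hl
    show decide (decide (u.map (tval x) ∈ _) = b) = decide (A (u.map (tval x)) = b)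
    have h2 := mem_yes (A := A) h1
    by_cases h : A (u.map (tval x)) = true
    · rw [decide_eq_true (h2.2 h), h]
    · have h4 : A (u.map (tval x)) = false := by simpa using h
      rw [decide_eq_false (fun h3 => h (h2.1 h3)), h4]

theorem lval_upTo {A : Oracle} {x : List Bool} {n q : ℕ} {l : Lit} (hl : LitOk n l)
    (hq : n ≤ q) : lval (upTo q A) x l = lval A x l := by
  obtain ⟨b, i | u⟩ := l
  · rfl
  · have h1 : (u.map (tval x)).length ≤ q := by
      rw [List.length_map]; exact hl.1.trans hq
    show decide (upTo q A (u.map (tval x)) = b) = decide (A (u.map (tval x)) = b)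
    unfold upTo
    rw [if_pos h1]

theorem eval_le_pow' (p : Polynomial ℕ) : ∃ C, ∀ n, 1 ≤ n → p.eval n ≤ C * n ^ p.natDegree := by
  refine ⟨∑ i ∈ Finset.range (p.natDegree + 1), p.coeff i, fun n hn => ?_⟩
  rw [Polynomial.eval_eq_sum_range, Finset.sum_mul]
  refine Finset.sum_le_sum fun i hi => Nat.mul_le_mul_left _ (Nat.pow_le_pow_right hn ?_)
  rw [Finset.mem_range] at hi
  omega

theorem log_eval (b : Polynomial ℕ) : ∃ C d, ∀ p n m : ℕ, m ≤ b.eval (2 * p + 1 + n) →
    Nat.log 2 m ≤ C + d * (2 * p + 1 + (Nat.log 2 n + 1)) := by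
  obtain ⟨C, hC⟩ := eval_le_pow' b
  refine ⟨C, b.natDegree, fun p n m hm => ?_⟩
  have h1 : 2 * p + 1 + n ≤ 2 ^ (2 * p + 1 + (Nat.log 2 n + 1)) := by
    have h2 : n < 2 ^ (Nat.log 2 n + 1) := Nat.lt_pow_succ_log_self (by norm_num) n
    have h3 : 2 * p + 1 < 2 ^ (2 * p + 1) := Nat.lt_two_pow_self
    rw [pow_add]
    have h4 : 1 ≤ 2 ^ (Nat.log 2 n + 1) := Nat.one_le_two_pow
    nlinarith
  have h5 := hC (2 * p + 1 + n) (by omega)
  have h6 : C * (2 * p + 1 + n) ^ b.natDegree ≤
      2 ^ (C + b.natDegree * (2 * p + 1 + (Nat.log 2 n + 1))) := by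
    rw [pow_add]
    refine Nat.mul_le_mul (Nat.lt_two_pow_self).le ?_
    rw [mul_comm b.natDegree, pow_mul]
    exact Nat.pow_le_pow_left h1 _
  calc Nat.log 2 m ≤ Nat.log 2 (2 ^ (C + b.natDegree * (2 * p + 1 + (Nat.log 2 n + 1)))) :=
        Nat.log_mono_right (hm.trans (h5.trans h6))
    _ = _ := Nat.log_pow (by norm_num) _

theorem inWPs_of_inM1 {A : Oracle} {α : Type} [TEnc α] {κ : α → ℕ} {P : α → Prop}
    (h : InM1 A κ P) : InWPs A κ P := by
  obtain ⟨d, π, g, R, M, hπ, hg, h⟩ := h
  obtain ⟨b, hb⟩ := M.out_length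
  obtain ⟨C, e, hlog⟩ := log_eval b
  obtain ⟨V, hV⟩ := exists_tt poly_vQ poly_vH
  have hlen : Computable (fun k => (π k).length) := Computable.list_length.comp hπ
  refine ⟨π, fun k => g k * (C + e * (2 * (π k).length + 2)), fun a => bits (R a), M, V, hπ,
    computable_mul hg (computable_add (Computable.const C) (computable_mul (Computable.const e)
      (computable_add (computable_mul (Computable.const 2) hlen) (Computable.const 2)))),
    fun a => ⟨(h a).1, ?_⟩⟩
  obtain ⟨h1, h2, h3, h4⟩ := h a
  rw [h4]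
  -- the number of the variables
  have hn : (R a).1 ≤ g (κ a) * (C + e * (2 * (π (κ a)).length + 2)) * lg a := by
    set L := Nat.log 2 (bits (R a)).length with hL
    have h5 : 1 ≤ L := by
      rw [hL]
      refine Nat.log_pos (by norm_num) ?_
      rw [bits_length (R a)]
      have e1 : sz (R a) = sz (R a).1 + sz (R a).2 + 1 := sz_pair (R a).1 (R a).2
      have := sz_pos (R a).1
      omega
    have h6 : (R a).1 ≤ g (κ a) * L := by
      unfold logParam at h3
      rw [← hL] at h3
      have h7 := Nat.div_add_mod ((R a).1 + L - 1) L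
      have h8 := Nat.mod_lt ((R a).1 + L - 1) h5
      have h9 : L * (((R a).1 + L - 1) / L) ≤ L * g (κ a) := Nat.mul_le_mul_left _ h3
      have h10 : L * g (κ a) = g (κ a) * L := mul_comm _ _
      omega
    have h7 : L ≤ C + e * (2 * (π (κ a)).length + 1 + lg a) := by
      refine hlog (π (κ a)).length (bits a).length _ ?_
      have := hb A _ _ h1
      rwa [length_pairBits] at this
    have h8 := lg_pos a
    have h9 : L ≤ (C + e * (2 * (π (κ a)).length + 2)) * lg a := by
      refine h7.trans ?_
      have e1 : (C + e * (2 * (π (κ a)).length + 2)) * lg a =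
          C * lg a + e * ((2 * (π (κ a)).length + 1) * lg a + lg a) := by ring
      rw [e1]
      refine Nat.add_le_add (Nat.le_mul_of_pos_right _ h8) (Nat.mul_le_mul_left _
        (Nat.add_le_add_right (Nat.le_mul_of_pos_right _ h8) _))
    calc (R a).1 ≤ g (κ a) * L := h6
      _ ≤ g (κ a) * ((C + e * (2 * (π (κ a)).length + 2)) * lg a) := Nat.mul_le_mul_left _ h9
      _ = _ := by ring
  set q := g (κ a) * (C + e * (2 * (π (κ a)).length + 2)) * lg a with hq
  -- the machine
  have hV' : ∀ x : List Bool, V.out (upTo q A) (pairBits x (bits (R a))) = some [true] ↔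
      x.length = (R a).1 ∧ ∀ c ∈ (R a).2, ∃ l ∈ c, lval A x l = true := by
    intro x
    rw [hV]
    have hd : dF (bits (R a)) = R a := by
      unfold dF
      rw [unbits_bits, Option.getD_some]
    have hvQ : vQ (pairBits x (bits (R a))) = (R a).2.flatten.map fun l => litQ x l := by
      unfold vQ
      rw [unpair_pairBits]
      dsimp only
      rw [hd]
    have hv : ∀ c ∈ (R a).2, ∀ l ∈ c, litV x (yesL ((R a).2.flatten.map fun l => litQ x l)
        (((R a).2.flatten.map fun l => litQ x l).map (upTo q A))) l = lval A x l := by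
      intro c hc l hl
      rw [litV_eq (List.mem_map.2 ⟨l, List.mem_flatten.2 ⟨c, hc, hl⟩, rfl⟩)]
      exact lval_upTo ((h2 c hc).2 l hl) hn
    have hchk : chk x (yesL ((R a).2.flatten.map fun l => litQ x l)
        (((R a).2.flatten.map fun l => litQ x l).map (upTo q A))) (R a).2 = true ↔
        ∀ c ∈ (R a).2, ∃ l ∈ c, lval A x l = true := by
      unfold chk
      rw [List.all_eq_true]
      refine forall₂_congr fun c hc => ?_
      rw [List.any_eq_true]
      refine exists_congr fun l => and_congr_right fun hl => ?_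
      rw [hv c hc l hl]
    rw [← hchk]
    unfold vH
    rw [hvQ, unpair_pairBits]
    dsimp only
    rw [hd]
    by_cases h5 : x.length = (R a).1
    · cases h6 : chk x (yesL ((R a).2.flatten.map fun l => litQ x l)
        (((R a).2.flatten.map fun l => litQ x l).map (upTo q A))) (R a).2
      · simp
      · simp [h5]
    · simp [h5]
  constructor
  · rintro ⟨x, h5, h6⟩
    exact ⟨x, h5.le.trans hn, (hV' x).2 ⟨h5, h6⟩⟩
  · rintro ⟨x, _, h6⟩
    obtain ⟨h7, h8⟩ := (hV' x).1 h6
    exact ⟨x, h7, h8⟩

end Pool.Agent.H681.OR
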