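import Pool.Agent.H681.OR.Incl

/-!
# `M[1]` is contained in `W[1]`
-/

set_option autoImplicit false

namespace Pool.Agent.H681.OR

open Pool.Agent.NPC Pool.Agent.H620R2.Gauge Pool.Agent.H622R2 Pool.Agent.Y626.WG
open Pool.Agent.TH678.WP (uPoly_log poly_replicate computable_pairBits computable_replicate log_size)
open Pool.Agent.Y626.WC (isFP_total InFPT sat_one)

theorem poly_bits {α β : Type} [TEnc α] [TEnc β] {f : α → β} (hf : NPC.Poly f) :
    NPC.Poly (fun a => bits (f a)) :=
  PC.comp (g := fun x : List Bool => x) (f := fun a => bits (f a)) PC.rawIn hf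

theorem poly_inst {α : Type} [TEnc α] {l : α → List (List Bool)} {r : α → List (List (ℕ × ℕ))}
    {b : α → List ℕ} {at' : α → List (ℕ × List ℕ)} {acc : α → List (List Bool)}
    (hl : NPC.Poly l) (hr : NPC.Poly r) (hb : NPC.Poly b) (ha : NPC.Poly at')
    (hacc : NPC.Poly acc) : NPC.Poly (fun a => (⟨l a, r a, b a, at' a, acc a⟩ : Inst)) :=
  NPC.Poly.pair hl (NPC.Poly.pair hr (NPC.Poly.pair hb (NPC.Poly.pair ha hacc)))

/-- the label number `i` -/
def lab (i : ℕ) : List Bool := (Nat.bits (i + 1)).reverse.tail.reverse

theorem lab_length (i : ℕ) : (lab i).length = Nat.size (i + 1) - 1 := by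
  unfold lab
  rw [List.length_reverse, List.length_tail, List.length_reverse, Nat.size_eq_bits_len]

theorem exists_lab (p : List Bool) : ∃ i, i < 2 ^ (p.length + 1) ∧ lab i = p := by
  refine ⟨valB (p ++ [true]) - 1, ?_, ?_⟩
  · have := valB_lt (p ++ [true])
    rw [List.length_append, List.length_singleton] at this
    omega
  · have h1 : 1 ≤ valB (p ++ [true]) := by
      rw [valB_append]
      have : valB [true] = 1 := by simp
      rw [this]
      have : 1 ≤ 2 ^ p.length := Nat.one_le_two_pow
      omega
    have h2 : (valB (p ++ [true]) - 1 + 1).bits = p ++ [true] := by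
      rw [Nat.sub_add_cancel h1]
      apply List.ext_getElem?
      intro j
      have key : ∀ p : List Bool, (valB (p ++ [true])).bits = p ++ [true] := by
        intro p
        induction p with
        | nil => simp
        | cons b p ih =>
          have hpos : valB (p ++ [true]) ≠ 0 := by
            intro h0
            rw [h0] at ih
            simp at ih
          rw [List.cons_append, valB_cons]
          cases b
          · have h3 : (if false = true then 1 else 0) + 2 * valB (p ++ [true]) =
                2 * valB (p ++ [true]) := by simp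
            rw [h3, Nat.bit0_bits _ hpos, ih]
          · have h3 : (if true = true then 1 else 0) + 2 * valB (p ++ [true]) =
                2 * valB (p ++ [true]) + 1 := by simp; omega
            rw [h3, Nat.bit1_bits, ih]
      rw [key]
    unfold lab
    rw [h2]
    simp

/-- the length of the piece number `j` -/
def pl (b ℓ j : ℕ) : ℕ := min b (ℓ - j * b)

/-- the labels -/
def labs (n : ℕ) (y : List Bool) : List (List Bool) := y :: (List.range (4 * n)).map lab

/-- the instance; `b` is the length of the pieces, `s` their number -/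
def oneInst (n b s : ℕ) (y : List Bool) : Inst where
  labels := labs n y
  rels := [(0, 0)] :: (List.range s).map fun j =>
    ((List.range (4 * n + 1)).filter fun e =>
      decide (((labs n y).getD e []).length = pl b y.length j)).map fun e => (e, e)
  blocks := [s + 1]
  atoms := (0, List.range (s + 1)) :: (List.range (s + 1)).map fun j => (j + 1, [j, j])
  acc := [List.replicate (s + 2) true]

theorem poly_oneInst {α : Type} [TEnc α] {n b s : α → ℕ} {y : α → List Bool} (hn : UPoly n)
    (hb : UPoly b) (hs : UPoly s) (hy : NPC.Poly y) :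
    NPC.Poly (fun a => oneInst (n a) (b a) (s a) (y a)) := by
  have h4n : UPoly (fun a => 4 * n a) := (UPoly.const 4).mul hn
  have h4n1 : UPoly (fun a => 4 * n a + 1) := h4n.add (UPoly.const 1)
  have hs1 : UPoly (fun a => s a + 1) := hs.add (UPoly.const 1)
  have hs2 : UPoly (fun a => s a + 2) := hs.add (UPoly.const 2)
  have hlab : NPC.Poly lab := by
    unfold lab
    exact NPC.Poly.reverse (NPC.Poly.tail (NPC.Poly.reverse (NPC.Poly.natBits
      (NPC.Poly.succ NPC.Poly.id))))
  have hlabs : NPC.Poly (fun a => labs (n a) (y a)) := by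
    unfold labs
    exact NPC.Poly.cons hy (NPC.Poly.map (F := fun _ i => lab i) h4n.range
      (hlab.comp (NPC.Poly.snd NPC.Poly.id)))
  refine poly_inst hlabs ?_ ?_ ?_ ?_
  · refine NPC.Poly.cons (NPC.Poly.const _) ?_
    refine NPC.Poly.map (F := fun a j => ((List.range (4 * n a + 1)).filter fun e =>
      decide (((labs (n a) (y a)).getD e []).length = pl (b a) (y a).length j)).map
        fun e => (e, e)) hs.range ?_
    refine NPC.Poly.map (l := fun p : α × ℕ => (List.range (4 * n p.1 + 1)).filter fun e =>
      decide (((labs (n p.1) (y p.1)).getD e []).length = pl (b p.1) (y p.1).length p.2))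
      (F := fun _ e => (e, e)) ?_ (NPC.Poly.pair (NPC.Poly.snd NPC.Poly.id)
      (NPC.Poly.snd NPC.Poly.id))
    refine NPC.Poly.filter (l := fun p : α × ℕ => List.range (4 * n p.1 + 1))
      (p := fun p e => decide (((labs (n p.1) (y p.1)).getD e []).length =
        pl (b p.1) (y p.1).length p.2)) (uPoly_comp_fst h4n1).range ?_
    have e1 : NPC.Poly (fun p : (α × ℕ) × ℕ => p.1.1) := NPC.Poly.fst (NPC.Poly.fst NPC.Poly.id)
    have e2 : NPC.Poly (fun p : (α × ℕ) × ℕ => p.1.2) := NPC.Poly.snd (NPC.Poly.fst NPC.Poly.id)
    have e3 : NPC.Poly (fun p : (α × ℕ) × ℕ => p.2) := NPC.Poly.snd NPC.Poly.id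
    refine NPC.Poly.decide_eq (NPC.Poly.length (NPC.Poly.getD (hlabs.comp e1) e3
      (NPC.Poly.const []))) ?_
    unfold pl
    exact NPC.Poly.min (hb.toPoly.comp e1) (NPC.Poly.sub (NPC.Poly.length (hy.comp e1))
      (NPC.Poly.mul e2 (hb.toPoly.comp e1)))
  · exact NPC.Poly.cons hs1.toPoly (NPC.Poly.const [])
  · refine NPC.Poly.cons (NPC.Poly.pair (NPC.Poly.const 0) hs1.range) ?_
    refine NPC.Poly.map (F := fun _ j => (j + 1, [j, j])) hs1.range ?_
    exact NPC.Poly.pair (NPC.Poly.succ (NPC.Poly.snd NPC.Poly.id))
      (NPC.Poly.cons (NPC.Poly.snd NPC.Poly.id) (NPC.Poly.cons (NPC.Poly.snd NPC.Poly.id)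
        (NPC.Poly.const [])))
  · exact NPC.Poly.cons (poly_replicate hs2 true) (NPC.Poly.const [])

/-! ### Pieces -/

theorem pieces_eq (w : List Bool) (b : ℕ) : ∀ s, (List.range s).flatMap
    (fun j => (w.drop (j * b)).take b) = w.take (s * b)
  | 0 => by simp
  | s + 1 => by
    rw [List.range_succ, List.flatMap_append, pieces_eq w b s, List.flatMap_singleton,
      Nat.succ_mul, List.take_add]

theorem pl_sum (b ℓ : ℕ) : ∀ s, ((List.range s).map (pl b ℓ)).sum = min ℓ (s * b)
  | 0 => by simp
  | s + 1 => by
    rw [List.range_succ, List.map_append, List.sum_append, pl_sum b ℓ s, List.map_singleton,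
      List.sum_singleton, Nat.succ_mul]
    unfold pl
    omega

theorem labs_length (n : ℕ) (y : List Bool) : (labs n y).length = 4 * n + 1 := by
  unfold labs
  rw [List.length_cons, List.length_map, List.length_range]

theorem labs_get {n : ℕ} {y p : List Bool} (hp : 2 ^ (p.length + 1) ≤ 4 * n) :
    ∃ e, e < 4 * n + 1 ∧ (labs n y).getD e [] = p := by
  obtain ⟨i, h1, h2⟩ := exists_lab p
  refine ⟨i + 1, by omega, ?_⟩
  unfold labs
  rw [List.getD_cons_succ, List.getD_eq_getElem _ _ (by
    rw [List.length_map, List.length_range]; omega), List.getElem_map, List.getElem_range, h2]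

theorem getD_zero_cons (v : List ℕ) (x : ℕ) (j : ℕ) : (x :: v).getD (j + 1) 0 = v.getD j 0 :=
  List.getD_cons_succ

/-- the truth of the sentence -/
theorem oneInst_sat (A : Oracle) {n b s : ℕ} {y : List Bool} (hb : 2 ^ (b + 1) ≤ 4 * n)
    (hs : y.length ≤ s * b) : (oneInst n b s y).Sat A ↔ Mini A y := by
  have hW : (oneInst n b s y).IsW 1 := by
    refine ⟨⟨by simp [oneInst, labs], by simp [oneInst]⟩, ?_⟩
    intro x hx
    simp [oneInst] at hx
  have hN : (oneInst n b s y).labels.length = 4 * n + 1 := labs_length n y
  rw [sat_one hW, hN]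
  have hsum : (oneInst n b s y).blocks.sum = s + 1 := by simp [oneInst]
  rw [hsum]
  -- the atoms
  have hrel : ∀ (v : List ℕ) (j : ℕ), j < s → v.getD (j + 1) 0 < 4 * n + 1 →
      ((oneInst n b s y).atom A v (j + 1 + 1, [j + 1, j + 1]) = true ↔
      ((labs n y).getD (v.getD (j + 1) 0) []).length = pl b y.length j) := by
    intro v j hj hv
    show decide ((v.getD (j + 1) 0, v.getD (j + 1) 0) ∈
      (oneInst n b s y).rels.getD (j + 1) []) = true ↔ _
    rw [decide_eq_true_eq]
    have h1 : (oneInst n b s y).rels.getD (j + 1) [] = ((List.range (4 * n + 1)).filter fun e =>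
      decide (((labs n y).getD e []).length = pl b y.length j)).map fun e => (e, e) := by
      show (_ :: _).getD (j + 1) [] = _
      rw [List.getD_cons_succ, List.getD_eq_getElem _ _ (by
        rw [List.length_map, List.length_range]; exact hj), List.getElem_map, List.getElem_range]
    rw [h1, List.mem_map]
    constructor
    · rintro ⟨e, h2, h3⟩
      rw [List.mem_filter, decide_eq_true_eq] at h2
      have h4 : e = v.getD (j + 1) 0 := (Prod.mk.inj h3).1
      rw [← h4]
      exact h2.2
    · intro h2
      refine ⟨_, ?_, rfl⟩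
      rw [List.mem_filter, decide_eq_true_eq, List.mem_range]
      exact ⟨hv, h2⟩
  have hrel0 : ∀ v : List ℕ, (oneInst n b s y).atom A v (0 + 1, [0, 0]) = true ↔
      v.getD 0 0 = 0 := by
    intro v
    show decide ((v.getD 0 0, v.getD 0 0) ∈ [((0 : ℕ), (0 : ℕ))]) = true ↔ _
    rw [decide_eq_true_eq, List.mem_singleton, Prod.mk.injEq, and_self]
  have hacc : ∀ v : List ℕ, ((oneInst n b s y).atoms.map ((oneInst n b s y).atom A v) ∈
      (oneInst n b s y).acc ↔
      (A ((List.range (s + 1)).flatMap fun i => (labs n y).getD (v.getD i 0) []) = true ∧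
        ∀ j < s + 1, (oneInst n b s y).atom A v (j + 1, [j, j]) = true)) := by
    intro v
    show _ ∈ [List.replicate (s + 2) true] ↔ _
    rw [List.mem_singleton, List.eq_replicate_iff]
    have hl : ((oneInst n b s y).atoms.map ((oneInst n b s y).atom A v)).length = s + 2 := by
      show (_ :: _ : List _).length = _
      simp [oneInst]
    constructor
    · rintro ⟨_, h⟩
      refine ⟨h _ (List.mem_map.2 ⟨(0, List.range (s + 1)), by simp [oneInst], rfl⟩),
        fun j hj => h _ (List.mem_map.2 ⟨(j + 1, [j, j]), ?_, rfl⟩)⟩
      simp only [oneInst, List.mem_cons, List.mem_map, List.mem_range]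
      exact Or.inr ⟨j, hj, rfl⟩
    · rintro ⟨h1, h2⟩
      refine ⟨hl, fun c hc => ?_⟩
      obtain ⟨at', h3, rfl⟩ := List.mem_map.1 hc
      simp only [oneInst, List.mem_cons, List.mem_map, List.mem_range] at h3
      rcases h3 with rfl | ⟨j, hj, rfl⟩
      · exact h1
      · exact h2 j hj
  have hflat : ∀ v : List ℕ, v.getD 0 0 = 0 →
      ((List.range (s + 1)).flatMap fun i => (labs n y).getD (v.getD i 0) []) =
      y ++ (List.range s).flatMap fun j => (labs n y).getD (v.getD (j + 1) 0) [] := by
    intro v h0
    rw [List.range_succ_eq_map, List.flatMap_cons, h0, List.flatMap_map]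
    rfl
  constructor
  · rintro ⟨v, ⟨hv1, hv2⟩, hv3⟩
    rw [hacc] at hv3
    obtain ⟨h1, h2⟩ := hv3
    have h0 : v.getD 0 0 = 0 := (hrel0 v).1 (h2 0 (by omega))
    rw [hflat v h0] at h1
    refine ⟨_, ?_, h1⟩
    rw [List.length_flatMap]
    have h3 : (List.range s).map (fun j => ((labs n y).getD (v.getD (j + 1) 0) []).length) =
        (List.range s).map (pl b y.length) := by
      refine List.map_congr_left fun j hj => ?_
      rw [List.mem_range] at hj
      refine (hrel v j hj ?_).1 (h2 (j + 1) (by omega))
      rw [List.getD_eq_getElem _ _ (by omega)]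
      exact hv2 _ (List.getElem_mem _)
    rw [h3, pl_sum]
    omega
  · rintro ⟨w, hw, hA⟩
    have hex : ∀ j, ∃ e, e < 4 * n + 1 ∧ (labs n y).getD e [] = (w.drop (j * b)).take b := by
      intro j
      refine labs_get (le_trans (Nat.pow_le_pow_right (by norm_num) ?_) hb)
      rw [List.length_take]
      omega
    choose e he1 he2 using hex
    refine ⟨0 :: (List.range s).map e, ⟨by simp, ?_⟩, ?_⟩
    · intro a ha
      rcases List.mem_cons.1 ha with rfl | ha
      · omega
      · obtain ⟨j, _, rfl⟩ := List.mem_map.1 ha
        exact he1 j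
    · have hgv : ∀ j < s, (0 :: (List.range s).map e).getD (j + 1) 0 = e j := by
        intro j hj
        rw [List.getD_cons_succ, List.getD_eq_getElem _ _ (by
          rw [List.length_map, List.length_range]; exact hj), List.getElem_map,
          List.getElem_range]
      rw [hacc]
      constructor
      · rw [hflat _ rfl]
        have h3 : (List.range s).flatMap (fun j => (labs n y).getD
            ((0 :: (List.range s).map e).getD (j + 1) 0) []) = w := by
          have h4 : (List.range s).flatMap (fun j => (labs n y).getD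
              ((0 :: (List.range s).map e).getD (j + 1) 0) []) =
              (List.range s).flatMap (fun j => (w.drop (j * b)).take b) := by
            rw [List.flatMap_def, List.flatMap_def]
            congr 1
            refine List.map_congr_left fun j hj => ?_
            rw [List.mem_range] at hj
            rw [hgv j hj, he2 j]
          rw [h4, pieces_eq, List.take_of_length_le (by rw [hw]; exact hs)]
        rw [h3]
        exact hA
      · intro j hj
        rcases j with _ | j
        · exact (hrel0 _).2 rfl
        · have hj' : j < s := by omega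
          refine (hrel _ j hj' ?_).2 ?_
          · rw [hgv j hj']; exact he1 j
          · rw [hgv j hj', he2 j, List.length_take, List.length_drop, hw]
            rfl

theorem oneInst_param (n b s : ℕ) (y : List Bool) : (oneInst n b s y).param = 5 * s + 6 := by
  unfold Inst.param
  simp only [oneInst, List.sum_cons, List.sum_nil, List.map_cons, List.length_range, List.map_map]
  have h : ((fun p : ℕ × List ℕ => p.2.length + 1) ∘ fun j : ℕ => (j + 1, [j, j])) =
      fun _ => 3 := by
    funext j
    simp
  rw [h, List.map_const', List.sum_replicate, List.length_range]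
  simp
  omega

end Pool.Agent.H681.OR
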