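import Pool.Agent.H681.OR.One

/-!
# `M[1]` is contained in `W[1]`, second part
-/

set_option autoImplicit false

namespace Pool.Agent.H681.OR

open Pool.Agent.NPC Pool.Agent.H620R2.Gauge Pool.Agent.H622R2 Pool.Agent.Y626.WG
open Pool.Agent.TH678.WP (uPoly_log poly_replicate computable_pairBits computable_replicate log_size)
open Pool.Agent.Y626.WC (isFP_total InFPT sat_one)

theorem inWs_of_inM {A : Oracle} {α : Type} [TEnc α] {κ : α → ℕ} {P : α → Prop}
    (h : InM A κ P) : InWs 1 A κ P := by
  obtain ⟨π, g, r, M, hπ, hg, h⟩ := h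
  have h1 : NPC.Poly (fun z : List Bool => (unpair z).1) := NPC.Poly.fst poly_unpair
  have h2 : NPC.Poly (fun z : List Bool => (unpair z).2) := NPC.Poly.snd poly_unpair
  have hw : NPC.Poly (fun z : List Bool => (unpair (unpair z).2).2) := h2.comp h2
  have hb : UPoly (fun z : List Bool => Nat.log 2 (unpair (unpair z).2).2.length + 1) :=
    uPoly_log hw
  have hs : UPoly (fun z : List Bool => (unpair z).1.length /
      (Nat.log 2 (unpair (unpair z).2).2.length + 1) + 1) :=
    (UPoly.of_le (NPC.Poly.div (NPC.Poly.length h1) hb.toPoly) (UPoly.length h1)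
      (fun z => Nat.div_le_self _ _)).add (UPoly.const 1)
  have hp : NPC.Poly (fun z : List Bool => bits (oneInst (unpair (unpair z).2).2.length
      (Nat.log 2 (unpair (unpair z).2).2.length + 1) ((unpair z).1.length /
      (Nat.log 2 (unpair (unpair z).2).2.length + 1) + 1) (unpair z).1)) :=
    poly_bits (poly_oneInst (UPoly.length hw) hb hs h1)
  obtain ⟨M', hM'⟩ := IsFP.comp (IsFP.of_poly (A := A) hp)
    (IsFP.pair (isFP_total A M) (IsFP.of_poly NPC.Poly.id))
  let R : α → Inst := fun a => oneInst (bits a).length (lg a) ((r a).length / lg a + 1) (r a)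
  have hn : ∀ a : α, (bits a).length ≠ 0 := fun a => by
    rw [bits_length]; exact (sz_pos a).ne'
  have hb1 : ∀ a : α, 2 ^ (lg a + 1) ≤ 4 * (bits a).length := by
    intro a
    have := Nat.pow_log_le_self 2 (hn a)
    unfold lg
    rw [pow_succ, pow_succ]
    omega
  have hs1 : ∀ a : α, (r a).length ≤ ((r a).length / lg a + 1) * lg a := by
    intro a
    have h3 := Nat.lt_div_mul_add (a := (r a).length) (lg_pos a)
    rw [Nat.succ_mul]
    omega
  refine ⟨π, fun k => 5 * g k + 11, R, M', hπ,
    computable_add (computable_mul (Computable.const 5) hg) (Computable.const 11),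
    fun a => ⟨?_, ?_, ?_, ?_, ?_⟩⟩
  · rw [hM']
    beta_reduce
    rw [(h a).1, Option.getD_some]
    simp only [unpair_pairBits]
    rfl
  · refine ⟨⟨by simp [R, oneInst, labs], by simp [R, oneInst]⟩, ?_⟩
    intro x hx
    simp [R, oneInst] at hx
  · rw [oneInst_param]
    have h3 : (r a).length / lg a ≤ g (κ a) := Nat.div_le_of_le_mul (by
      rw [mul_comm]; exact (h a).2.1)
    beta_reduce
    omega
  · intro l hl
    have h3 := lg_pos a
    have h4 := (h a).2.1
    have h5 : (5 * g (κ a) + 11) * lg a = 5 * (g (κ a) * lg a) + 11 * lg a := by ring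
    beta_reduce
    rw [h5]
    have hl' : l ∈ labs (bits a).length (r a) := hl
    unfold labs at hl'
    rcases List.mem_cons.1 hl' with rfl | hl'
    · omega
    · obtain ⟨i, hi, rfl⟩ := List.mem_map.1 hl'
      rw [List.mem_range] at hi
      rw [lab_length]
      have h6 : Nat.size (i + 1) ≤ Nat.log 2 (bits a).length + 3 := by
        refine Nat.size_le.2 ?_
        have h7 := Nat.lt_pow_succ_log_self (by norm_num : 1 < 2) (bits a).length
        have h8 : 2 ^ (Nat.log 2 (bits a).length + 3) = 4 * 2 ^ (Nat.log 2 (bits a).length + 1) := by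
          rw [show Nat.log 2 (bits a).length + 3 = Nat.log 2 (bits a).length + 1 + 2 by ring, pow_add]
          ring
        have h9 : (Nat.log 2 (bits a).length).succ = Nat.log 2 (bits a).length + 1 := rfl
        rw [h9] at h7
        omega
      unfold lg
      unfold lg at h3
      omega
  · rw [(h a).2.2]
    exact (oneInst_sat A (hb1 a) (hs1 a)).symm

end Pool.Agent.H681.OR
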