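import Pool.Agent.H681.OR.Exist
import Pool.Graph.R_seed8.H620R2.Gauge.A2

/-!
# Few commitments determine the run of an algorithm
-/

set_option autoImplicit false

namespace Pool.Agent.H681.OR

open Pool.Agent.NPC Pool.Agent.H620R2.Gauge
open Pool.Agent.TH678.GC (join)
open Pool.Agent.Y626.WC (cut cut_cut exists_self)

variable {Φ : ℕ → List Bool → Oracle → Prop} {D E₀ : Oracle} {m₀ : ℕ} {ys : List Bool}

/-- One question. -/
theorem one_question (h5 : 5 ≤ m₀) {S : Finset (Key × List Bool)} {Q : Finset (List Bool)}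
    (hS : SOk m₀ ys S) (hQ : QOk m₀ Q) (hc : S.card + Q.card + 3 ≤ 2 ^ (m₀ - 2))
    (q : List Bool) : ∃ (S' : Finset (Key × List Bool)) (Q' : Finset (List Bool)) (o : Bool),
      S ⊆ S' ∧ Q ⊆ Q' ∧ SOk m₀ ys S' ∧ QOk m₀ Q' ∧ S'.card + Q'.card ≤ S.card + Q.card + 1 ∧
      ∀ E, Compat Φ D E₀ m₀ S' Q' E → join D E q = o := by
  classical
  rcases q with _ | ⟨b, z⟩
  · exact ⟨S, Q, false, subset_rfl, subset_rfl, hS, hQ, Nat.le_succ _, fun E _ => rfl⟩
  cases b with
  | false => exact ⟨S, Q, D z, subset_rfl, subset_rfl, hS, hQ, Nat.le_succ _, fun E _ => rfl⟩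
  | true =>
    by_cases hz : z.length < 2 * m₀ - 1
    · exact ⟨S, Q, E₀ z, subset_rfl, subset_rfl, hS, hQ, Nat.le_succ _,
        fun E hE => (hE.low z hz).symm⟩
    rw [not_lt] at hz
    rcases z with _ | ⟨b, c⟩
    · simp at hz; omega
    cases b with
    | false =>
      refine ⟨S, insert (false :: c) Q, false, subset_rfl, Finset.subset_insert _ _, hS, ?_, ?_,
        fun E hE => hE.zero _ (Finset.mem_insert_self _ _)⟩
      · intro q hq
        rcases Finset.mem_insert.1 hq with rfl | hq
        · exact ⟨hz, c, rfl⟩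
        · exact hQ q hq
      · have := Finset.card_insert_le (false :: c) Q
        omega
    | true =>
      rw [List.length_cons] at hz
      by_cases hex : ∃ (K : Key) (j : ℕ), K.Ok ∧ j < K.m ∧ K.enc j = c
      swap
      · exact ⟨S, Q, false, subset_rfl, subset_rfl, hS, hQ, Nat.le_succ _,
          fun E hE => hE.dead c hz hex⟩
      obtain ⟨K, j, hK, hj, rfl⟩ := hex
      rw [K.enc_length j] at hz
      by_cases hm : K.m < m₀
      · exact ⟨S, Q, (rowOf Φ D E₀ K).getD j false, subset_rfl, subset_rfl, hS, hQ,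
          Nat.le_succ _, fun E hE => hE.lowcode K hK hm hz j hj⟩
      rw [not_lt] at hm
      by_cases hin : ∃ y, (K, y) ∈ S
      · obtain ⟨y, hy⟩ := hin
        exact ⟨S, Q, y.getD j false, subset_rfl, subset_rfl, hS, hQ, Nat.le_succ _,
          fun E hE => hE.code _ hy j hj⟩
      have hcI : (insert ys (S.image Prod.snd)).card ≤ S.card + 1 :=
        (Finset.card_insert_le _ _).trans (Nat.add_le_add_right Finset.card_image_le 1)
      have hp : 2 ^ (m₀ - 2) ≤ 2 ^ (K.m - 2) := Nat.pow_le_pow_right (by norm_num) (by omega)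
      obtain ⟨y, h1, h2⟩ := exists_fresh (m := K.m) (by omega) (insert ys (S.image Prod.snd))
        (by omega)
      rw [Finset.mem_insert, not_or] at h2
      have hmem : ∀ p ∈ S, p.2 ≠ y := fun p hp h => h2.2 (h ▸ Finset.mem_image_of_mem Prod.snd hp)
      have hkey : ∀ p ∈ S, p.1 ≠ K := fun p hp h => hin ⟨p.2, by rw [← h]; exact hp⟩
      refine ⟨insert (K, y) S, Q, y.getD j false, Finset.subset_insert _ _, subset_rfl,
        ⟨?_, ?_, ?_, ?_, ?_, ?_⟩, hQ, ?_, fun E hE => hE.code _ (Finset.mem_insert_self _ _) j hj⟩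
      · intro p hp
        rcases Finset.mem_insert.1 hp with rfl | hp
        · exact hK
        · exact hS.ok p hp
      · intro p hp
        rcases Finset.mem_insert.1 hp with rfl | hp
        · exact hm
        · exact hS.lev p hp
      · intro p hp
        rcases Finset.mem_insert.1 hp with rfl | hp
        · exact h1
        · exact hS.row p hp
      · intro p hp
        rcases Finset.mem_insert.1 hp with rfl | hp
        · exact h2.1
        · exact hS.ne p hp
      · intro p hp p' hp' h
        rcases Finset.mem_insert.1 hp with rfl | hp <;>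
          rcases Finset.mem_insert.1 hp' with rfl | hp'
        · rfl
        · exact absurd h.symm (hkey p' hp')
        · exact absurd h (hkey p hp)
        · exact hS.fn p hp p' hp' h
      · intro p hp p' hp' h
        rcases Finset.mem_insert.1 hp with rfl | hp <;>
          rcases Finset.mem_insert.1 hp' with rfl | hp'
        · rfl
        · exact absurd h.symm (hmem p' hp')
        · exact absurd h (hmem p hp)
        · exact hS.inj p hp p' hp' h
      · have := Finset.card_insert_le (K, y) S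
        omega

/-- The run of an algorithm. -/
theorem run_determined (h5 : 5 ≤ m₀) (M : Alg) (x : List Bool) : ∀ (n : ℕ) (a : List Bool)
    (S : Finset (Key × List Bool)) (Q : Finset (List Bool)), SOk m₀ ys S → QOk m₀ Q →
    S.card + Q.card + n + 3 ≤ 2 ^ (m₀ - 2) →
    ∃ (S' : Finset (Key × List Bool)) (Q' : Finset (List Bool)) (o : Option (List Bool)),
      S ⊆ S' ∧ Q ⊆ Q' ∧ SOk m₀ ys S' ∧ QOk m₀ Q' ∧ S'.card + Q'.card ≤ S.card + Q.card + n ∧
      ∀ E, Compat Φ D E₀ m₀ S' Q' E → M.run (join D E) x n a = o := by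
  intro n
  induction n with
  | zero =>
    intro a S Q hS hQ _
    exact ⟨S, Q, none, subset_rfl, subset_rfl, hS, hQ, le_rfl, fun E _ => rfl⟩
  | succ n ih =>
    intro a S Q hS hQ hc
    by_cases h1 : (M.D (pairBits x a)).head? = some false
    · obtain ⟨S', Q', o, hSS, hQQ, hS', hQ', hcard, ho⟩ := one_question (Φ := Φ) (D := D)
        (E₀ := E₀) h5 hS hQ (by omega) (M.D (pairBits x a)).tail
      obtain ⟨S'', Q'', o', hSS', hQQ', hS'', hQ'', hcard', ho'⟩ := ih (a ++ [o]) S' Q' hS' hQ'
        (by omega)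
      refine ⟨S'', Q'', o', hSS.trans hSS', hQQ.trans hQQ', hS'', hQ'', by omega, fun E hE => ?_⟩
      rw [A2.run_succ, if_pos h1, ho E (hE.mono hSS' hQQ')]
      exact ho' E hE
    · refine ⟨S, Q, some (M.D (pairBits x a)).tail, subset_rfl, subset_rfl, hS, hQ, by omega,
        fun E _ => ?_⟩
      rw [A2.run_succ, if_neg h1]

/-- Some good oracle, equal to the given one on the strings of length less than `2 m₀ - 1`, fools
the algorithm. -/
theorem fool (h5 : 5 ≤ m₀) (hE₀ : GoodB Φ D m₀ E₀) (M : Alg) (x : List Bool)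
    (hys : Row m₀ ys) (hn : M.p.eval x.length + 3 ≤ 2 ^ (m₀ - 2)) :
    ∃ (E : Oracle) (b : Bool), Good Φ D E ∧ Agree (2 * m₀ - 1) E₀ E ∧
      (Mini (join D E) ys ↔ b = true) ∧ M.out (join D E) x ≠ some [b] := by
  have hS : SOk m₀ ys ∅ := ⟨by simp, by simp, by simp, by simp, by simp, by simp⟩
  have hQ : QOk m₀ ∅ := by intro q hq; simp at hq
  obtain ⟨S', Q', o, _, _, hS', hQ', hcard, ho⟩ := run_determined (Φ := Φ) (D := D) (E₀ := E₀)
    (ys := ys) h5 M x (M.p.eval x.length) [] ∅ ∅ hS hQ (by
      rw [Finset.card_empty, Finset.card_empty]; omega)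
  rw [Finset.card_empty, Finset.card_empty] at hcard
  obtain ⟨E1, h1, h2, h3⟩ := exists_world Φ D E₀ m₀ h5 hE₀ S' Q' ys hys hS' hQ' (by omega) true
  obtain ⟨E2, h4, h6, h7⟩ := exists_world Φ D E₀ m₀ h5 hE₀ S' Q' ys hys hS' hQ' (by omega) false
  by_cases h : o = some [true]
  · refine ⟨E2, false, h4, h6.low, h7, ?_⟩
    unfold Alg.out
    rw [ho E2 h6, h]
    simp
  · refine ⟨E1, true, h1, h2.low, h3, ?_⟩
    unfold Alg.out
    rw [ho E1 h2]
    exact h

end Pool.Agent.H681.OR
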