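import Pool.Agent.H681.OR.Defs
import Pool.Graph.R_seed8.Y626.WC.Self
import Pool.Graph.R_seed8.H620R2.Gauge.A1

/-!
# The construction of the oracles

The strings `false :: x` of the oracle `E` form the rows, the strings `true :: c` the codes.
-/

set_option autoImplicit false

namespace Pool.Agent.H681.OR

open Pool.Agent.NPC Pool.Agent.H620R2.Gauge
open Pool.Agent.TH678.GC (join)
open Pool.Agent.Y626.WC (cut cut_cut exists_self)

/-- The name of a statement about the oracle: number `i` of the property, the string `v`, the bound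
`q` for the length of the questions; `m` is the level at which the statement is coded. -/
structure Key : Type where
  /-- the number of the property -/
  i : ℕ
  /-- the string -/
  v : List Bool
  /-- the bound for the questions -/
  q : ℕ
  /-- the level -/
  m : ℕ

/-- the unit vector -/
def unit (m j : ℕ) : List Bool := (List.range m).map (fun l => decide (l = j))

@[simp] theorem unit_length (m j : ℕ) : (unit m j).length = m := by simp [unit]

theorem unit_inj {m j j' : ℕ} (hj : j < m) (h : unit m j = unit m j') : j = j' := by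
  have h1 : (unit m j)[j]'(by simpa using hj) = (unit m j')[j]'(by simpa using hj) := by
    simp only [h]
  simpa [unit] using h1

theorem pairBits_inj' {x w x' w' : List Bool} (h : pairBits x w = pairBits x' w') :
    x = x' ∧ w = w' := by
  have h1 := congrArg unpair h
  rw [unpair_pairBits, unpair_pairBits, Prod.mk.injEq] at h1
  exact h1

theorem pairBits_len (x w : List Bool) : (pairBits x w).length = 2 * x.length + 1 + w.length :=
  length_pairBits x w

/-- the name of the statement -/
def Key.name (K : Key) : List Bool :=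
  pairBits (List.replicate K.i true) (pairBits (List.replicate K.q true) K.v)

/-- the question for the bit number `j` of the row -/
def Key.enc (K : Key) (j : ℕ) : List Bool := pairBits (unit K.m j) K.name

/-- the length of the questions -/
def Key.len (K : Key) : ℕ := 2 * K.m + 2 + K.name.length

theorem Key.enc_length (K : Key) (j : ℕ) : (K.enc j).length + 1 = K.len := by
  unfold Key.enc Key.len
  rw [pairBits_len, unit_length]
  omega

theorem Key.enc_inj {K K' : Key} {j j' : ℕ} (hj : j < K.m) (h : K.enc j = K'.enc j') :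
    K = K' ∧ j = j' := by
  obtain ⟨h1, h2⟩ := pairBits_inj' h
  obtain ⟨h3, h4⟩ := pairBits_inj' h2
  obtain ⟨h5, h6⟩ := pairBits_inj' h4
  have h7 : K.m = K'.m := by simpa using congrArg List.length h1
  have h8 : K.i = K'.i := by simpa using congrArg List.length h3
  have h9 : K.q = K'.q := by simpa using congrArg List.length h5
  obtain ⟨i, v, q, m⟩ := K
  obtain ⟨i', v', q', m'⟩ := K'
  dsimp only at *
  subst h7 h8 h9 h6
  exact ⟨rfl, unit_inj hj h1⟩

/-- the condition on the levels -/
def Key.Ok (K : Key) : Prop := 5 ≤ K.m ∧ K.q < 2 * K.m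

/-- `y` is a row of level `m` -/
def Row (m : ℕ) (y : List Bool) : Prop := y.length = m ∧ ∃ x, y = true :: false :: x

/-- the two oracles agree on the strings of length less than `n` -/
def Agree (n : ℕ) (E E' : Oracle) : Prop := ∀ z : List Bool, z.length < n → E z = E' z

theorem Agree.symm {n : ℕ} {E E' : Oracle} (h : Agree n E E') : Agree n E' E :=
  fun z hz => (h z hz).symm

theorem Agree.trans {n : ℕ} {E E' E'' : Oracle} (h : Agree n E E') (h' : Agree n E' E'') :
    Agree n E E'' := fun z hz => (h z hz).trans (h' z hz)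

theorem Agree.mono {n n' : ℕ} {E E' : Oracle} (h : Agree n E E') (hn : n' ≤ n) :
    Agree n' E E' := fun z hz => h z (hz.trans_le hn)

theorem agree_cut (E : Oracle) (n : ℕ) : Agree n (cut E n) E := fun z hz => by
  unfold cut
  rw [if_pos hz]

theorem Agree.cut_eq {n : ℕ} {E E' : Oracle} (h : Agree n E E') : cut E n = cut E' n := by
  funext z
  unfold cut
  by_cases hz : z.length < n
  · rw [if_pos hz, if_pos hz, h z hz]
  · rw [if_neg hz, if_neg hz]

section

variable (Φ : ℕ → List Bool → Oracle → Prop) (D : Oracle)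

/-- the statement named by the key is true -/
def truth (E : Oracle) (K : Key) : Prop := Φ K.i K.v (upTo K.q (join D E))

/-- the row of the key `K` is `y` -/
def Codes (E : Oracle) (K : Key) (y : List Bool) : Prop :=
  ∀ j < K.m, E (true :: K.enc j) = y.getD j false

variable {Φ D}

theorem join_congr {n : ℕ} {E E' : Oracle} (h : Agree n E E') {z : List Bool}
    (hz : z.length ≤ n) : join D E z = join D E' z := by
  rcases z with _ | ⟨b, z⟩
  · rfl
  · cases b
    · rfl
    · exact h z (by simpa using hz)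

theorem truth_congr {E E' : Oracle} {K : Key} (h : Agree K.q E E') :
    truth Φ D E K ↔ truth Φ D E' K := by
  have h1 : upTo K.q (join D E) = upTo K.q (join D E') := by
    funext z
    unfold upTo
    by_cases hz : z.length ≤ K.q
    · rw [if_pos hz, if_pos hz]
      exact join_congr h hz
    · rw [if_neg hz, if_neg hz]
  unfold truth
  rw [h1]

theorem mini_congr {E E' : Oracle} {n : ℕ} {y : List Bool} (h : Agree n E E')
    (hy : 2 * y.length ≤ n) : Mini (join D E) y ↔ Mini (join D E') y := by
  unfold Mini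
  refine exists_congr fun w => and_congr_right fun hw => ?_
  rw [join_congr h (by rw [List.length_append]; omega)]

theorem codes_congr {E E' : Oracle} {n : ℕ} {K : Key} {y : List Bool} (h : Agree n E E')
    (hn : K.len < n) : Codes E K y ↔ Codes E' K y := by
  unfold Codes
  refine forall₂_congr fun j _ => ?_
  rw [h _ (by rw [List.length_cons, K.enc_length j]; exact hn)]

variable (Φ D)

/-- Levels less than `m₀` are as they should be. -/
structure GoodB (m₀ : ℕ) (E : Oracle) : Prop where
  yes : ∀ m, 5 ≤ m → m < m₀ → ∃ y, Row m y ∧ Mini (join D E) y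
  no : ∀ m, 5 ≤ m → m < m₀ → ∃ y, Row m y ∧ ¬ Mini (join D E) y
  code : ∀ K : Key, K.Ok → K.len < 2 * m₀ - 1 →
    ∃ y, Row K.m y ∧ Codes E K y ∧ (Mini (join D E) y ↔ truth Φ D E K)

/-- All levels are as they should be. -/
structure Good (E : Oracle) : Prop where
  yes : ∀ m, 5 ≤ m → ∃ y, Row m y ∧ Mini (join D E) y
  no : ∀ m, 5 ≤ m → ∃ y, Row m y ∧ ¬ Mini (join D E) y
  code : ∀ K : Key, K.Ok → ∃ y, Row K.m y ∧ Codes E K y ∧ (Mini (join D E) y ↔ truth Φ D E K)

variable {Φ D}

theorem Good.goodB {E : Oracle} (h : Good Φ D E) (m₀ : ℕ) : GoodB Φ D m₀ E :=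
  ⟨fun m hm _ => h.yes m hm, fun m hm _ => h.no m hm, fun K hK _ => h.code K hK⟩

theorem Good.of_local {E : Oracle} (h : ∀ n, ∃ E', Good Φ D E' ∧ Agree n E' E) : Good Φ D E := by
  refine ⟨fun m hm => ?_, fun m hm => ?_, fun K hK => ?_⟩
  · obtain ⟨E', h1, h2⟩ := h (2 * m)
    obtain ⟨y, h3, h4⟩ := h1.yes m hm
    exact ⟨y, h3, (mini_congr h2 (by rw [h3.1])).1 h4⟩
  · obtain ⟨E', h1, h2⟩ := h (2 * m)
    obtain ⟨y, h3, h4⟩ := h1.no m hm
    exact ⟨y, h3, fun h5 => h4 ((mini_congr h2 (by rw [h3.1])).2 h5)⟩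
  · obtain ⟨E', h1, h2⟩ := h (K.len + 1)
    obtain ⟨y, h3, h4, h5⟩ := h1.code K hK
    have hl : 2 * K.m ≤ K.len + 1 := by unfold Key.len; omega
    have hq : K.q ≤ K.len + 1 := by have := hK.2; omega
    refine ⟨y, h3, (codes_congr h2 (Nat.lt_succ_self _)).1 h4, ?_⟩
    rw [← mini_congr h2 (by rw [h3.1]; exact hl), h5, truth_congr (h2.mono hq)]

open Classical in
/-- a row for the truth value `b` -/
noncomputable def pick (D E : Oracle) (m : ℕ) (b : Prop) : List Bool :=
  if h : ∃ y, Row m y ∧ (Mini (join D E) y ↔ b) then h.choose else []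

theorem pick_spec {E : Oracle} {m : ℕ} {b : Prop}
    (h : ∃ y, Row m y ∧ (Mini (join D E) y ↔ b)) :
    Row m (pick D E m b) ∧ (Mini (join D E) (pick D E m b) ↔ b) := by
  unfold pick
  rw [dif_pos h]
  exact h.choose_spec

variable (Φ D)

/-- the row for the key `K` -/
noncomputable def rowOf (E : Oracle) (K : Key) : List Bool :=
  pick D (cut E (2 * K.m)) K.m (truth Φ D (cut E (2 * K.m)) K)

variable {Φ D}

theorem rowOf_congr {E E' : Oracle} {n : ℕ} {K : Key} (h : Agree n E E') (hn : 2 * K.m ≤ n) :
    rowOf Φ D E K = rowOf Φ D E' K := by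
  unfold rowOf
  rw [(h.mono hn).cut_eq]

theorem rowOf_spec {E : Oracle} {K : Key} (hK : K.Ok) (hy : ∃ y, Row K.m y ∧ Mini (join D E) y)
    (hn : ∃ y, Row K.m y ∧ ¬ Mini (join D E) y) :
    Row K.m (rowOf Φ D E K) ∧ (Mini (join D E) (rowOf Φ D E K) ↔ truth Φ D E K) := by
  have ha : Agree (2 * K.m) (cut E (2 * K.m)) E := agree_cut E _
  have h1 : ∃ y, Row K.m y ∧ (Mini (join D (cut E (2 * K.m))) y ↔
      truth Φ D (cut E (2 * K.m)) K) := by
    by_cases ht : truth Φ D (cut E (2 * K.m)) K
    · obtain ⟨y, h2, h3⟩ := hy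
      exact ⟨y, h2, iff_of_true ((mini_congr ha (by rw [h2.1])).2 h3) ht⟩
    · obtain ⟨y, h2, h3⟩ := hn
      exact ⟨y, h2, iff_of_false (fun h => h3 ((mini_congr ha (by rw [h2.1])).1 h)) ht⟩
  obtain ⟨h2, h3⟩ := pick_spec h1
  refine ⟨h2, ?_⟩
  have h4 : 2 * (rowOf Φ D E K).length ≤ 2 * K.m := by
    have : (rowOf Φ D E K).length = K.m := h2.1
    omega
  rw [← mini_congr ha h4, ← truth_congr (ha.mono hK.2.le)]
  exact h3

end

/-! ### Fresh rows -/

theorem exists_fresh {m : ℕ} (hm : 2 ≤ m) (T : Finset (List Bool)) (hT : T.card < 2 ^ (m - 2)) :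
    ∃ y, Row m y ∧ y ∉ T := by
  classical
  by_contra hcon
  push Not at hcon
  let f : List.Vector Bool (m - 2) → List Bool := fun x => true :: false :: x.1
  have hf : Function.Injective f := by
    intro x y h
    simp only [f, List.cons.injEq, true_and] at h
    exact Subtype.ext h
  have h1 : (Finset.univ.image f) ⊆ T := by
    intro y hy
    obtain ⟨x, _, rfl⟩ := Finset.mem_image.1 hy
    refine hcon _ ⟨?_, x.1, rfl⟩
    have := x.2
    simp only [f, List.length_cons, this]
    omega
  have h2 := Finset.card_le_card h1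
  rw [Finset.card_image_of_injective _ hf, Finset.card_univ, card_vector, Fintype.card_bool] at h2
  omega

theorem exists_wit {y : List Bool} (Q : Finset (List Bool)) (hQ : Q.card < 2 ^ y.length) :
    ∃ w : List Bool, w.length = y.length ∧ (y ++ w).tail ∉ Q := by
  classical
  by_contra hcon
  push Not at hcon
  rcases y with _ | ⟨b, y⟩
  · simp only [List.length_nil, pow_zero, Nat.lt_one_iff, Finset.card_eq_zero] at hQ
    have := hcon [] rfl
    rw [hQ] at this
    simp at this
  · let f : List.Vector Bool (y.length + 1) → List Bool := fun x => y ++ x.1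
    have hf : Function.Injective f := by
      intro x z h
      simp only [f, List.append_cancel_left_eq] at h
      exact Subtype.ext h
    have h1 : (Finset.univ.image f) ⊆ Q := by
      intro z hz
      obtain ⟨x, _, rfl⟩ := Finset.mem_image.1 hz
      have := hcon x.1 (by simp [x.2])
      simpa using this
    have h2 := Finset.card_le_card h1
    rw [Finset.card_image_of_injective _ hf, Finset.card_univ, card_vector, Fintype.card_bool] at h2
    rw [List.length_cons] at hQ
    omega

/-! ### Commitments -/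

/-- The committed rows. -/
structure SOk (m₀ : ℕ) (ys : List Bool) (S : Finset (Key × List Bool)) : Prop where
  ok : ∀ p ∈ S, p.1.Ok
  lev : ∀ p ∈ S, m₀ ≤ p.1.m
  row : ∀ p ∈ S, Row p.1.m p.2
  ne : ∀ p ∈ S, p.2 ≠ ys
  fn : ∀ p ∈ S, ∀ p' ∈ S, p.1 = p'.1 → p.2 = p'.2
  inj : ∀ p ∈ S, ∀ p' ∈ S, p.2 = p'.2 → p.1 = p'.1

/-- The strings which are committed not to be in the oracle. -/
def QOk (m₀ : ℕ) (Q : Finset (List Bool)) : Prop :=
  ∀ q ∈ Q, 2 * m₀ - 1 ≤ q.length ∧ ∃ x, q = false :: x

/-- The oracle `E` respects the commitments. -/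
structure Compat (Φ : ℕ → List Bool → Oracle → Prop) (D E₀ : Oracle) (m₀ : ℕ)
    (S : Finset (Key × List Bool)) (Q : Finset (List Bool)) (E : Oracle) : Prop where
  low : Agree (2 * m₀ - 1) E₀ E
  zero : ∀ q ∈ Q, E q = false
  code : ∀ p ∈ S, Codes E p.1 p.2
  dead : ∀ c : List Bool, 2 * m₀ - 1 ≤ c.length + 1 →
    (¬ ∃ (K : Key) (j : ℕ), K.Ok ∧ j < K.m ∧ K.enc j = c) → E (true :: c) = false
  lowcode : ∀ K : Key, K.Ok → K.m < m₀ → 2 * m₀ - 1 ≤ K.len → Codes E K (rowOf Φ D E₀ K)

theorem Compat.mono {Φ : ℕ → List Bool → Oracle → Prop} {D E₀ : Oracle} {m₀ : ℕ}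
    {S S' : Finset (Key × List Bool)} {Q Q' : Finset (List Bool)} {E : Oracle}
    (h : Compat Φ D E₀ m₀ S' Q' E) (hS : S ⊆ S') (hQ : Q ⊆ Q') : Compat Φ D E₀ m₀ S Q E :=
  ⟨h.low, fun q hq => h.zero q (hQ hq), fun p hp => h.code p (hS hp), h.dead, h.lowcode⟩

end Pool.Agent.H681.OR
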